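import Pool.Agent.InjC.Cub

/-!
# MP_e7fc82_pr, cubes, module AllP: comparison of the norms for `p ≥ 2` with those for `p = 2` (helper41)
-/

namespace Pool.Agent.InjC

open Finset MeasureTheory ProbabilityTheory Matrix
open Pool.Agent.InjP Pool.Agent.InjB
open Pool.Agent.SymASQ (sg)

variable {d n : ℕ}

theorem pn_two_le {p : ℝ} (hp : 2 ≤ p) (hd : 1 ≤ d) (x : Fin d → ℝ) :
    pn 2 x ≤ (d : ℝ) ^ (1 / 2 - 1 / p) * pn p x := by
  have h := sum_sq_le hp hd x
  rw [pn_two]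
  have h2 : 0 ≤ (d : ℝ) ^ (1 / 2 - 1 / p) * pn p x := by
    have := pn_nonneg p x
    positivity
  rw [← mul_pow] at h
  exact (Real.sqrt_le_sqrt h).trans (le_of_eq (Real.sqrt_sq h2))

theorem pn_le_two {p : ℝ} (hp : 2 ≤ p) (x : Fin d → ℝ) : pn p x ≤ pn 2 x := by
  have hp0 : 0 < p := by linarith
  have hM : 0 ≤ pn 2 x := pn_nonneg 2 x
  have hM2 : ∑ i, x i ^ 2 = pn 2 x ^ 2 := by
    rw [pn_two, Real.sq_sqrt (Finset.sum_nonneg fun i _ => sq_nonneg _)]
  rcases hM.eq_or_lt with h0 | h0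
  · have hx : x = 0 := by
      funext k
      have := abs_le_pn (p := 2) (by norm_num) x k
      rw [← h0] at this
      exact abs_eq_zero.1 (le_antisymm this (abs_nonneg _))
    rw [hx, pn_zero hp0, pn_zero (by norm_num)]
  · have h1 : ∑ i, |x i| ^ p ≤ pn 2 x ^ p := by
      have h2 : ∀ i, |x i| ^ p ≤ pn 2 x ^ (p - 2) * x i ^ 2 := by
        intro i
        rcases (abs_nonneg (x i)).eq_or_lt with hi | hi
        · rw [← hi, Real.zero_rpow hp0.ne']
          positivity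
        · have e1 : |x i| ^ p = |x i| ^ (p - 2) * x i ^ 2 := by
            rw [← sq_abs (x i), ← Real.rpow_natCast, ← Real.rpow_add hi]
            congr 1
            push_cast
            ring
          rw [e1]
          refine mul_le_mul_of_nonneg_right ?_ (sq_nonneg _)
          exact Real.rpow_le_rpow (abs_nonneg _) (abs_le_pn (by norm_num) x i) (by linarith)
      refine (Finset.sum_le_sum fun i _ => h2 i).trans (le_of_eq ?_)
      rw [← Finset.mul_sum, hM2, ← Real.rpow_natCast, ← Real.rpow_add h0]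
      congr 1
      push_cast
      ring
    have h3 : pn p x = (∑ i, |x i| ^ p) ^ (1 / p) := rfl
    rw [h3]
    calc (∑ i, |x i| ^ p) ^ (1 / p) ≤ (pn 2 x ^ p) ^ (1 / p) :=
          Real.rpow_le_rpow (Finset.sum_nonneg fun i _ => Real.rpow_nonneg (abs_nonneg _) _) h1 (by positivity)
      _ = pn 2 x := by
          rw [← Real.rpow_mul hM, mul_one_div_cancel hp0.ne', Real.rpow_one]

theorem injNorm_le_two {r : ℕ} {p : ℝ} (hp : 2 ≤ p) (hd : 1 ≤ d) (hr : r ≠ 0) (T : (Fin r → Fin d) → ℝ) :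
    injNorm p T ≤ ((d : ℝ) ^ (1 / 2 - 1 / p)) ^ r * injNorm 2 T := by
  have hp0 : 0 < p := by linarith
  have h2 := injNorm_nonneg (p := 2) (by norm_num) T
  refine injNorm_le hp0 (by positivity) fun x => ?_
  refine (pairing_le (p := 2) (by norm_num) hr T x).trans ?_
  have h3 := pow_le_pow_left₀ (pn_nonneg 2 x) (pn_two_le hp hd x) r
  rw [mul_pow] at h3
  calc injNorm 2 T * pn 2 x ^ r ≤ injNorm 2 T * (((d : ℝ) ^ (1 / 2 - 1 / p)) ^ r * pn p x ^ r) :=
        mul_le_mul_of_nonneg_left h3 h2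
    _ = _ := by ring

theorem injNorm_two_le {r : ℕ} {p : ℝ} (hp : 2 ≤ p) (hr : r ≠ 0) (T : (Fin r → Fin d) → ℝ) :
    injNorm 2 T ≤ injNorm p T := by
  have hp0 : 0 < p := by linarith
  refine injNorm_le (by norm_num) (injNorm_nonneg hp0 T) fun x => ?_
  refine (pairing_le hp0 hr T x).trans ?_
  refine mul_le_mul_of_nonneg_left ?_ (injNorm_nonneg hp0 T)
  exact pow_le_pow_left₀ (pn_nonneg p x) (pn_le_two hp x) r

theorem cub_all {p : ℝ} (hp : 2 ≤ p) (hd : 1 ≤ d) {T : Fin n → (Fin 3 → Fin d) → ℝ} (hT : ∀ i, IsSymT (T i)) :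
    Integrable (fun g : Fin n → ℝ => injNorm p (∑ i, g i • T i)) (gauss n) ∧
    ∫ g : Fin n → ℝ, injNorm p (∑ i, g i • T i) ∂gauss n ≤
      100000 * Real.sqrt (1 + Real.log d) * (d : ℝ) ^ (5 / 3 - 3 / p) * Real.sqrt (∑ i, injNorm p (T i) ^ 2) := by
  have hp0 : 0 < p := by linarith
  have hd0 : (0 : ℝ) < d := by exact_mod_cast hd
  refine ⟨integrable_injNorm hp0 (by norm_num) T, ?_⟩
  obtain ⟨hi, hb⟩ := cub_gauss (n := n) hd hT
  have h1 : ∫ g : Fin n → ℝ, injNorm p (∑ i, g i • T i) ∂gauss n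
      ≤ ((d : ℝ) ^ (1 / 2 - 1 / p)) ^ 3 * ∫ g : Fin n → ℝ, injNorm 2 (∑ i, g i • T i) ∂gauss n := by
    rw [← integral_const_mul]
    refine integral_mono (integrable_injNorm hp0 (by norm_num) T) (hi.const_mul _) fun g => ?_
    exact injNorm_le_two hp hd (by norm_num) _
  have h2 : Real.sqrt (∑ i, injNorm 2 (T i) ^ 2) ≤ Real.sqrt (∑ i, injNorm p (T i) ^ 2) := by
    apply Real.sqrt_le_sqrt
    refine Finset.sum_le_sum fun i _ => ?_
    exact pow_le_pow_left₀ (injNorm_nonneg (by norm_num) _) (injNorm_two_le hp (by norm_num) _) 2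
  have h3 : ((d : ℝ) ^ (1 / 2 - 1 / p)) ^ 3 * (d : ℝ) ^ (1 / 6 : ℝ) = (d : ℝ) ^ (5 / 3 - 3 / p) := by
    rw [← Real.rpow_natCast, ← Real.rpow_mul hd0.le, ← Real.rpow_add hd0]
    congr 1
    push_cast
    ring
  calc ∫ g : Fin n → ℝ, injNorm p (∑ i, g i • T i) ∂gauss n
      ≤ ((d : ℝ) ^ (1 / 2 - 1 / p)) ^ 3 * ∫ g : Fin n → ℝ, injNorm 2 (∑ i, g i • T i) ∂gauss n := h1
    _ ≤ ((d : ℝ) ^ (1 / 2 - 1 / p)) ^ 3 * (100000 * Real.sqrt (1 + Real.log d) * (d : ℝ) ^ (1 / 6 : ℝ) *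
          Real.sqrt (∑ i, injNorm p (T i) ^ 2)) := by
        refine mul_le_mul_of_nonneg_left (hb.trans ?_) (by positivity)
        gcongr
    _ = _ := by
        rw [← h3]
        ring

end Pool.Agent.InjC
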