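import Pool.Agent.InjC.Defs

/-!
# MP_e7fc82_pr, cubes, module BosSw: transpose of the lifted operator (helper41)

The proof of `bosM_transpose` (InjB/Sec1.lean) uses the symmetry of `T` only through `Sec1_flip`.
-/

namespace Pool.Agent.InjC

open Finset MeasureTheory ProbabilityTheory Matrix
open Pool.Agent.InjP Pool.Agent.InjB

variable {s q N : ℕ}

theorem bosM_transpose_of_swap {T : (Fin (s + s) → Fin N) → ℝ}
    (hT : ∀ j k : Fin s → Fin N, T (Fin.append k j) = T (Fin.append j k)) : (bosM q T)ᵀ = bosM q T := by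
  ext φ φ'
  have h1 : (bosM q T)ᵀ φ φ' = ∑ j : Fin s → Fin N, ∑ k : Fin s → Fin N,
      T (Fin.append j k) * ∏ a, hopE (j a) (k a) (φ' a) (φ a) := rfl
  have h2 : bosM q T φ φ' = ∑ j : Fin s → Fin N, ∑ k : Fin s → Fin N,
      T (Fin.append j k) * ∏ a, hopE (j a) (k a) (φ a) (φ' a) := rfl
  rw [h1, h2, Finset.sum_comm]
  refine Finset.sum_congr rfl fun j _ => Finset.sum_congr rfl fun k _ => ?_
  rw [hT]
  congr 1
  refine Finset.prod_congr rfl fun a _ => ?_
  have h3 := congrFun (congrFun (hopE_transpose (q := q) (j a) (k a)) (φ' a)) (φ a)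
  rw [← h3]
  rfl

end Pool.Agent.InjC
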