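import Pool.Agent.InjC.One

/-!
# MP_e7fc82_pr, cubes, module Cub: the bound (helper41)
-/

namespace Pool.Agent.InjC

open Finset MeasureTheory ProbabilityTheory Matrix
open Pool.Agent.InjP Pool.Agent.InjB
open Pool.Agent.SymASQ (sg)

variable {d n : ℕ}

private theorem cub_sg_sq (b : Bool) : sg b * sg b = 1 := by cases b <;> simp [sg]

private theorem cub_sg_abs (b : Bool) : |sg b| = 1 := by cases b <;> simp [sg]

/-- enough: unit vectors -/
private theorem cub_inj_le {S : (Fin 3 → Fin d) → ℝ} {M : ℝ} (hM : 0 ≤ M)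
    (h : ∀ x : Fin d → ℝ, ∑ i, x i ^ 2 = 1 → |pairing S x| ≤ M) : injNorm 2 S ≤ M := by
  refine injNorm_le (by norm_num) hM fun x => ?_
  have h0 : 0 ≤ ∑ i, x i ^ 2 := Finset.sum_nonneg fun i _ => sq_nonneg _
  rcases eq_or_lt_of_le h0 with h1 | h1
  · have hx : x = 0 := by
      funext i
      have := (Finset.sum_eq_zero_iff_of_nonneg (fun i _ => sq_nonneg (x i))).1 h1.symm i (Finset.mem_univ i)
      simpa using this
    have h2 : pairing S x = 0 := by
      have h3 := pairing_smul_right S 0 x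
      rw [zero_smul, zero_pow (by norm_num), zero_mul] at h3
      rw [hx]
      exact h3
    rw [h2, abs_zero]
    exact mul_nonneg hM (pow_nonneg (pn_nonneg 2 x) _)
  · set R : ℝ := Real.sqrt (∑ i, x i ^ 2) with hR
    have hRpos : 0 < R := Real.sqrt_pos.2 h1
    have hR2 : R ^ 2 = ∑ i, x i ^ 2 := Real.sq_sqrt h0
    have hpn : pn 2 x = R := pn_two x
    have h3 : ∑ i, (R⁻¹ • x) i ^ 2 = 1 := by
      have : ∀ i, (R⁻¹ • x) i ^ 2 = (R ^ 2)⁻¹ * x i ^ 2 := by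
        intro i
        rw [Pi.smul_apply, smul_eq_mul, mul_pow, inv_pow]
      rw [Finset.sum_congr rfl fun i _ => this i, ← Finset.mul_sum, ← hR2]
      exact inv_mul_cancel₀ (by positivity)
    have h4 := h _ h3
    rw [pairing_smul_right, abs_mul, abs_pow, abs_inv, abs_of_pos hRpos, inv_pow,
      inv_mul_le_iff₀ (by positivity)] at h4
    rw [hpn]
    linarith

/-- the norm of a vector bounds its product with a unit vector -/
private theorem cub_cs {v x : Fin d → ℝ} (hx : ∑ i, x i ^ 2 = 1) {M : ℝ}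
    (h : ∑ i, v i ^ 2 ≤ M) : |v ⬝ᵥ x| ≤ Real.sqrt M := by
  apply Real.abs_le_sqrt
  have h1 := Finset.sum_mul_sq_le_sq_mul_sq Finset.univ v x
  rw [hx, mul_one] at h1
  have h2 : (v ⬝ᵥ x) ^ 2 = (∑ i, v i * x i) ^ 2 := rfl
  rw [h2]
  linarith

/-- the square of the norm of `vx` of a signed sum -/
private theorem cub_sq (T : Fin n → (Fin 3 → Fin d) → ℝ) (e : Fin n → Bool) (x : Fin d → ℝ) :
    ∑ a, vx (∑ i, sg (e i) • T i) x a ^ 2 = ∑ i, ∑ a, vx (T i) x a ^ 2 +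
      ∑ i, ∑ j, (if i ≠ j then sg (e i) * sg (e j) * (vx (T i) x ⬝ᵥ vx (T j) x) else 0) := by
  have h1 : ∑ a, vx (∑ i, sg (e i) • T i) x a ^ 2 =
      vx (∑ i, sg (e i) • T i) x ⬝ᵥ vx (∑ i, sg (e i) • T i) x := by
    unfold dotProduct
    exact Finset.sum_congr rfl fun a _ => by ring
  rw [h1, vx_linear T (fun i => sg (e i)) x, sum_dotProduct]
  have h2 : ∀ i, (sg (e i) • vx (T i) x) ⬝ᵥ (∑ j, sg (e j) • vx (T j) x) =
      ∑ a, vx (T i) x a ^ 2 +
        ∑ j, (if i ≠ j then sg (e i) * sg (e j) * (vx (T i) x ⬝ᵥ vx (T j) x) else 0) := by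
    intro i
    rw [dotProduct_sum]
    have h3 : ∀ j, (sg (e i) • vx (T i) x) ⬝ᵥ (sg (e j) • vx (T j) x) =
        (if i = j then ∑ a, vx (T i) x a ^ 2 else 0) +
          (if i ≠ j then sg (e i) * sg (e j) * (vx (T i) x ⬝ᵥ vx (T j) x) else 0) := by
      intro j
      rw [smul_dotProduct, dotProduct_smul, smul_eq_mul, smul_eq_mul]
      by_cases hij : i = j
      · subst hij
        have h4 : vx (T i) x ⬝ᵥ vx (T i) x = ∑ a, vx (T i) x a ^ 2 := by
          unfold dotProduct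
          exact Finset.sum_congr rfl fun a _ => by ring
        rw [if_pos rfl, if_neg (by simp), h4, ← mul_assoc, cub_sg_sq]
        ring
      · rw [if_neg hij, if_pos hij]
        ring
    rw [Finset.sum_congr rfl fun j _ => h3 j, Finset.sum_add_distrib, Finset.sum_ite_eq]
    simp
  rw [Finset.sum_congr rfl fun i _ => h2 i, Finset.sum_add_distrib]

/-- the mean of the injective norm is bounded by a quadratic inequality -/
theorem cub_quadratic (hd : 1 ≤ d) {q : ℕ} (hq : 1 ≤ q) {T : Fin n → (Fin 3 → Fin d) → ℝ} (hT : ∀ i, IsSymT (T i))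
    (hW : 0 < ∑ i, injNorm 2 (T i) ^ 2) :
    ((2 ^ n)⁻¹ * ∑ e : Fin n → Bool, injNorm 2 (∑ i, sg (e i) • T i)) ^ 2 ≤
      729 * (∑ i, injNorm 2 (T i) ^ 2) + 4 *
        (216 * Real.sqrt (∑ i, injNorm 2 (T i) ^ 2) * Real.sqrt (1 + 2 * q * Real.log d) *
          (54 * ((2 ^ n)⁻¹ * ∑ e : Fin n → Bool, injNorm 2 (∑ i, sg (e i) • T i)) +
            320 * Real.sqrt (1 + Real.log d) * Real.sqrt d * Real.sqrt (∑ i, injNorm 2 (T i) ^ 2) / q +
            Real.sqrt (∑ i, injNorm 2 (T i) ^ 2))) := by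
  set W : ℝ := ∑ i, injNorm 2 (T i) ^ 2 with hWdef
  set Φ : ℝ := (2 ^ n)⁻¹ * ∑ e : Fin n → Bool, injNorm 2 (∑ i, sg (e i) • T i) with hΦ
  set B : ℝ := 216 * Real.sqrt W * Real.sqrt (1 + 2 * q * Real.log d) *
          (54 * Φ + 320 * Real.sqrt (1 + Real.log d) * Real.sqrt d * Real.sqrt W / q + Real.sqrt W) with hB
  choose N hN1 hN2 using fun θ : Fin n → Bool => one_bound hd hq hT hW θ
  obtain ⟨N', hN3, hN4⟩ := decouple (X := {x : Fin d → ℝ // ∑ i, x i ^ 2 = 1})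
    (fun i j x => vx (T i) x.1 ⬝ᵥ vx (T j) x.1) N (B := B)
    (fun θ e η x => hN1 θ e η x) (fun θ => hN2 θ)
  -- a unit vector
  have hunit : ∃ x : Fin d → ℝ, ∑ i, x i ^ 2 = 1 := by
    refine ⟨Pi.single ⟨0, hd⟩ 1, ?_⟩
    rw [Finset.sum_eq_single (⟨0, hd⟩ : Fin d)]
    · simp
    · intro b _ hb
      rw [Pi.single_eq_of_ne hb]
      norm_num
    · intro h
      exact absurd (Finset.mem_univ _) h
  obtain ⟨x0, hx0⟩ := hunit
  have hN0 : ∀ ε, 0 ≤ N' ε := fun ε => (abs_nonneg _).trans (hN3 ε ⟨x0, hx0⟩)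
  have key : ∀ e : Fin n → Bool, injNorm 2 (∑ i, sg (e i) • T i) ^ 2 ≤ 729 * W + N' e := by
    intro e
    have hM : 0 ≤ 729 * W + N' e := by
      have := hN0 e
      positivity
    have h1 : injNorm 2 (∑ i, sg (e i) • T i) ≤ Real.sqrt (729 * W + N' e) := by
      refine cub_inj_le (Real.sqrt_nonneg _) fun x hx => ?_
      rw [pairing_vx]
      refine cub_cs hx ?_
      rw [cub_sq]
      have h2 : ∑ i, ∑ a, vx (T i) x a ^ 2 ≤ 729 * W := by
        have h3 : ∑ i, ∑ a, vx (T i) x a ^ 2 ≤ ∑ i, (27 * injNorm 2 (T i)) ^ 2 :=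
          Finset.sum_le_sum fun i _ => vx_le (hT i) hx.le
        refine h3.trans (le_of_eq ?_)
        rw [hWdef, Finset.mul_sum]
        exact Finset.sum_congr rfl fun i _ => by ring
      have h4 := (abs_le.1 (hN3 e ⟨x, hx⟩)).2
      have h5 : ∑ i, ∑ j, (if i ≠ j then sg (e i) * sg (e j) * (vx (T i) x ⬝ᵥ vx (T j) x) else 0) ≤ N' e := h4
      linarith
    have h2 : 0 ≤ injNorm 2 (∑ i, sg (e i) • T i) := injNorm_nonneg (by norm_num) _
    calc injNorm 2 (∑ i, sg (e i) • T i) ^ 2 ≤ Real.sqrt (729 * W + N' e) ^ 2 :=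
          pow_le_pow_left₀ h2 h1 2
      _ = 729 * W + N' e := Real.sq_sqrt hM
  -- Jensen
  have hcard : ((Finset.univ : Finset (Fin n → Bool)).card : ℝ) = 2 ^ n := by
    rw [Finset.card_univ, Fintype.card_fun, Fintype.card_bool, Fintype.card_fin]
    push_cast
    rfl
  have hJ : (∑ e : Fin n → Bool, injNorm 2 (∑ i, sg (e i) • T i)) ^ 2 ≤
      2 ^ n * ∑ e : Fin n → Bool, injNorm 2 (∑ i, sg (e i) • T i) ^ 2 := by
    have := sq_sum_le_card_mul_sum_sq (s := (Finset.univ : Finset (Fin n → Bool)))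
      (f := fun e => injNorm 2 (∑ i, sg (e i) • T i))
    rw [hcard] at this
    exact this
  have hS : ∑ e : Fin n → Bool, injNorm 2 (∑ i, sg (e i) • T i) ^ 2 ≤ 2 ^ n * (729 * W + 4 * B) := by
    calc ∑ e : Fin n → Bool, injNorm 2 (∑ i, sg (e i) • T i) ^ 2
        ≤ ∑ e : Fin n → Bool, (729 * W + N' e) := Finset.sum_le_sum fun e _ => key e
      _ = 2 ^ n * (729 * W) + ∑ e : Fin n → Bool, N' e := by
          rw [Finset.sum_add_distrib, Finset.sum_const, nsmul_eq_mul, hcard]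
      _ ≤ 2 ^ n * (729 * W) + 2 ^ n * (4 * B) := by linarith
      _ = 2 ^ n * (729 * W + 4 * B) := by ring
  have hp : (0 : ℝ) < 2 ^ n := by positivity
  have h6 : Φ ^ 2 = ((2 : ℝ) ^ n)⁻¹ ^ 2 * (∑ e : Fin n → Bool, injNorm 2 (∑ i, sg (e i) • T i)) ^ 2 := by
    rw [hΦ, mul_pow]
  rw [h6]
  calc ((2 : ℝ) ^ n)⁻¹ ^ 2 * (∑ e : Fin n → Bool, injNorm 2 (∑ i, sg (e i) • T i)) ^ 2
      ≤ ((2 : ℝ) ^ n)⁻¹ ^ 2 * (2 ^ n * (2 ^ n * (729 * W + 4 * B))) := by
        gcongr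
        exact hJ.trans (by gcongr)
    _ = 729 * W + 4 * B := by
        field_simp

private theorem cub_arith {Φ w D L q ld lg : ℝ} (hw : 0 < w) (hΦ : 0 ≤ Φ) (hD : 1 ≤ D) (hL : 1 ≤ L)
    (hlg : L ^ 2 = 1 + lg) (hq1 : D ^ 2 ≤ q) (hq2 : q ≤ 2 * D ^ 2) (hld : ld = D ^ 3)
    (h : Φ ^ 2 ≤ 729 * w ^ 2 + 4 * (216 * w * Real.sqrt (1 + 2 * q * lg) *
      (54 * Φ + 320 * L * ld * w / q + w))) : Φ ≤ 100000 * (L * D * w) := by
  have hD0 : 0 < D := by linarith
  have hL0 : 0 < L := by linarith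
  have hq0 : 0 < q := lt_of_lt_of_le (by positivity) hq1
  have hlg0 : 0 ≤ lg := by nlinarith
  have hs : Real.sqrt (1 + 2 * q * lg) ≤ 2 * D * L := by
    rw [show 2 * D * L = Real.sqrt ((2 * D * L) ^ 2) from (Real.sqrt_sq (by positivity)).symm]
    apply Real.sqrt_le_sqrt
    have e1 : (2 * D * L) ^ 2 = 4 * D ^ 2 * (1 + lg) := by rw [← hlg]; ring
    rw [e1]
    have e2 : 2 * q * lg ≤ 2 * (2 * D ^ 2) * lg := by gcongr
    have e3 : 1 ≤ 4 * D ^ 2 := by nlinarith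
    nlinarith
  have hdq : ld / q ≤ D := by
    rw [div_le_iff₀ hq0, hld]
    calc D ^ 3 = D * D ^ 2 := by ring
      _ ≤ D * q := by gcongr
  have e1 : 320 * L * ld * w / q = 320 * L * w * (ld / q) := by
    field_simp
  have e2 : 320 * L * ld * w / q ≤ 320 * L * w * D := by
    rw [e1]
    gcongr
  have hsn := Real.sqrt_nonneg (1 + 2 * q * lg)
  have hld0 : 0 ≤ ld := by rw [hld]; positivity
  have e3 : 0 ≤ 54 * Φ + 320 * L * ld * w / q + w := by positivity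
  set A : ℝ := L * D * w with hA
  have hA0 : 0 < A := by positivity
  have hwA : w ≤ A := by
    rw [hA]
    have : 1 ≤ L * D := by nlinarith
    nlinarith
  have e4 : 4 * (216 * w * Real.sqrt (1 + 2 * q * lg) * (54 * Φ + 320 * L * ld * w / q + w)) ≤
      4 * (216 * w * (2 * D * L) * (54 * Φ + 320 * L * w * D + w)) := by
    gcongr
  have e5 : 4 * (216 * w * (2 * D * L) * (54 * Φ + 320 * L * w * D + w)) =
      1728 * A * (54 * Φ + 320 * A + w) := by
    rw [hA]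
    ring
  have e6 : Φ ^ 2 ≤ 729 * w ^ 2 + 1728 * A * (54 * Φ + 320 * A + w) := by
    rw [← e5]
    exact h.trans (by linarith)
  have e7 : 729 * w ^ 2 ≤ 729 * A ^ 2 := by gcongr
  have e8 : 1728 * A * (54 * Φ + 320 * A + w) ≤ 1728 * A * (54 * Φ + 320 * A + A) := by gcongr
  by_contra hcon
  push Not at hcon
  have e9 : 0 < Φ - 100000 * A := by linarith
  nlinarith [mul_pos e9 e9, mul_pos e9 hA0, mul_pos hA0 hA0]

theorem cub_rad (hd : 1 ≤ d) {T : Fin n → (Fin 3 → Fin d) → ℝ} (hT : ∀ i, IsSymT (T i)) :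
    ∑ e : Fin n → Bool, injNorm 2 (∑ i, sg (e i) • T i) ≤
      2 ^ n * (100000 * Real.sqrt (1 + Real.log d) * (d : ℝ) ^ (1 / 6 : ℝ) * Real.sqrt (∑ i, injNorm 2 (T i) ^ 2)) := by
  have hd1 : (1 : ℝ) ≤ d := by exact_mod_cast hd
  have hd0 : (0 : ℝ) < d := by linarith
  have hlog : 0 ≤ Real.log d := Real.log_nonneg hd1
  have hW0 : 0 ≤ ∑ i, injNorm 2 (T i) ^ 2 := Finset.sum_nonneg fun i _ => sq_nonneg _
  rcases eq_or_lt_of_le hW0 with h0 | hW
  · -- all the norms vanish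
    have h1 : ∀ i, injNorm 2 (T i) = 0 := by
      intro i
      have := (Finset.sum_eq_zero_iff_of_nonneg (fun i _ => sq_nonneg (injNorm 2 (T i)))).1 h0.symm i
        (Finset.mem_univ i)
      simpa using this
    have h2 : ∀ e : Fin n → Bool, injNorm 2 (∑ i, sg (e i) • T i) ≤ 0 := by
      intro e
      have := injNorm_sum_le (p := 2) (by norm_num) (by norm_num) T (fun i => sg (e i))
      simpa [h1] using this
    refine (Finset.sum_nonpos fun e _ => h2 e).trans ?_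
    positivity
  · set W : ℝ := ∑ i, injNorm 2 (T i) ^ 2 with hWdef
    set D : ℝ := (d : ℝ) ^ (1 / 6 : ℝ) with hD
    have hD1 : 1 ≤ D := Real.one_le_rpow hd1 (by norm_num)
    have hD6 : D ^ 6 = d := by
      rw [hD, ← Real.rpow_natCast, ← Real.rpow_mul hd0.le]
      norm_num
    set q : ℕ := ⌈D ^ 2⌉₊ with hq
    have hq1 : D ^ 2 ≤ (q : ℝ) := Nat.le_ceil _
    have hq2 : (q : ℝ) ≤ 2 * D ^ 2 := by
      have h1 := Nat.ceil_lt_add_one (R := ℝ) (a := D ^ 2) (by positivity)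
      have h2 : (1 : ℝ) ≤ D ^ 2 := by nlinarith
      linarith
    have hqpos : 1 ≤ q := by
      have : (0 : ℝ) < q := lt_of_lt_of_le (by positivity) hq1
      exact_mod_cast this
    have h := cub_quadratic hd hqpos hT hW
    set Φ : ℝ := (2 ^ n)⁻¹ * ∑ e : Fin n → Bool, injNorm 2 (∑ i, sg (e i) • T i) with hΦ
    have hsum0 : 0 ≤ ∑ e : Fin n → Bool, injNorm 2 (∑ i, sg (e i) • T i) :=
      Finset.sum_nonneg fun e _ => injNorm_nonneg (by norm_num) _
    have hΦ0 : 0 ≤ Φ := by positivity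
    have hw : 0 < Real.sqrt W := Real.sqrt_pos.2 hW
    have hL1 : 1 ≤ Real.sqrt (1 + Real.log d) := by
      rw [show (1 : ℝ) = Real.sqrt 1 by simp]
      apply Real.sqrt_le_sqrt
      simp only [Real.sqrt_one]
      linarith
    have hL2 : Real.sqrt (1 + Real.log d) ^ 2 = 1 + Real.log d := Real.sq_sqrt (by linarith)
    have hsd : Real.sqrt d = D ^ 3 := by
      rw [Real.sqrt_eq_iff_mul_self_eq hd0.le (by positivity), ← hD6]
      ring
    have hw2 : Real.sqrt W ^ 2 = W := Real.sq_sqrt hW.le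
    have h3 : Φ ≤ 100000 * (Real.sqrt (1 + Real.log d) * D * Real.sqrt W) := by
      refine cub_arith (lg := Real.log d) (ld := Real.sqrt d) (q := q) hw hΦ0 hD1 hL1 hL2 hq1 hq2 hsd ?_
      rw [hw2]
      exact h
    have h4 : ∑ e : Fin n → Bool, injNorm 2 (∑ i, sg (e i) • T i) = 2 ^ n * Φ := by
      rw [hΦ]
      field_simp
    rw [h4]
    have h5 : 100000 * Real.sqrt (1 + Real.log d) * D * Real.sqrt W =
        100000 * (Real.sqrt (1 + Real.log d) * D * Real.sqrt W) := by ring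
    rw [h5]
    gcongr

theorem cub_gauss (hd : 1 ≤ d) {T : Fin n → (Fin 3 → Fin d) → ℝ} (hT : ∀ i, IsSymT (T i)) :
    Integrable (fun g : Fin n → ℝ => injNorm 2 (∑ i, g i • T i)) (gauss n) ∧
    ∫ g : Fin n → ℝ, injNorm 2 (∑ i, g i • T i) ∂gauss n ≤
      100000 * Real.sqrt (1 + Real.log d) * (d : ℝ) ^ (1 / 6 : ℝ) * Real.sqrt (∑ i, injNorm 2 (T i) ^ 2) := by
  have hp0 : (0 : ℝ) < 2 := by norm_num
  have h30 : (3 : ℕ) ≠ 0 := by norm_num
  refine ⟨integrable_injNorm hp0 h30 T, ?_⟩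
  refine gauss_of_rad hp0 h30 T (by positivity) ?_
  intro g
  have h2 := cub_rad hd (T := fun i => g i • T i)
    (fun i σ k => by simp only [Pi.smul_apply, hT i σ k])
  simp only [smul_smul] at h2
  refine h2.trans ?_
  have h3 : ∑ i, injNorm 2 (g i • T i) ^ 2 ≤ ∑ i, (|g i| * injNorm 2 (T i)) ^ 2 :=
    Finset.sum_le_sum fun i _ => pow_le_pow_left₀ (injNorm_nonneg hp0 _)
      (injNorm_smul_le hp0 h30 _ _) 2
  have h4 := Real.sqrt_le_sqrt h3
  gcongr

end Pool.Agent.InjC
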