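import Pool.Agent.InjC.Defs

/-!
# MP_e7fc82_pr, cubes, module Dec: decoupling of a Rademacher chaos of order two (helper44)

`decouple`: for `i ≠ j` exactly a quarter of the `θ : Fin n → Bool` have `θ i = true`, `θ j = false`, so
`∑_{i ≠ j} a i j = 4 * 2 ^ (-n) * ∑ θ, ∑ i j, [θ i = true, θ j = false] a i j`. For fixed `θ` and every `ω` put
`e i = if θ i then ε i else ω i`, `η i = if θ i then ω i else ε i`: the sum for `θ` with the signs `ε` is the sum with the signs
`e, η`, so it is `≤ 2 ^ (-n) * ∑ ω, N θ e η`, and `(ε, ω) ↦ (e, η)` is an involution. `Nhat ε = 4 * 2 ^ (-n) ∑ θ 2 ^ (-n) ∑ ω N θ e η`.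
`half_le`: `2 ∑_{θ j = false} η_j T_j = ∑ η_j T_j + ∑ η'_j T_j`, `η' =` `η` with the signs flipped where `θ j = true`.
-/

namespace Pool.Agent.InjC

open Finset MeasureTheory ProbabilityTheory Matrix
open Pool.Agent.InjP Pool.Agent.InjB
open Pool.Agent.SymASQ (sg)

variable {n : ℕ}

/-- flip the sign number `i` -/
private def decFlip (i : Fin n) (θ : Fin n → Bool) : Fin n → Bool := fun k => if k = i then !θ k else θ k

private theorem decFlip_inv (i : Fin n) : Function.Involutive (decFlip i) := by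
  intro θ
  funext k
  unfold decFlip
  by_cases h : k = i <;> simp [h]

private theorem dec_count {i j : Fin n} (hij : i ≠ j) :
    4 * ∑ θ : Fin n → Bool, (if θ i = true ∧ θ j = false then (1 : ℝ) else 0) = 2 ^ n := by
  have hi := (Equiv.sum_comp ((decFlip_inv i).toPerm _) (fun θ : Fin n → Bool => if θ i = true ∧ θ j = false then (1 : ℝ) else 0))
  have hj := (Equiv.sum_comp ((decFlip_inv j).toPerm _) (fun θ : Fin n → Bool => if θ i = true ∧ θ j = false then (1 : ℝ) else 0))
  have hk := (Equiv.sum_comp ((decFlip_inv i).toPerm _)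
    (fun θ : Fin n → Bool => if (decFlip_inv j).toPerm _ θ i = true ∧ (decFlip_inv j).toPerm _ θ j = false then (1 : ℝ) else 0))
  have hc : ∑ θ : Fin n → Bool, (1 : ℝ) = 2 ^ n := by simp
  have key : ∀ θ : Fin n → Bool,
      (if θ i = true ∧ θ j = false then (1 : ℝ) else 0)
      + (if (decFlip_inv i).toPerm _ θ i = true ∧ (decFlip_inv i).toPerm _ θ j = false then (1 : ℝ) else 0)
      + (if (decFlip_inv j).toPerm _ θ i = true ∧ (decFlip_inv j).toPerm _ θ j = false then (1 : ℝ) else 0)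
      + (if (decFlip_inv j).toPerm _ ((decFlip_inv i).toPerm _ θ) i = true ∧
          (decFlip_inv j).toPerm _ ((decFlip_inv i).toPerm _ θ) j = false then (1 : ℝ) else 0) = 1 := by
    intro θ
    simp only [Function.Involutive.coe_toPerm, decFlip, hij, hij.symm, if_true, if_false]
    cases θ i <;> cases θ j <;> simp
  have := Finset.sum_congr rfl (fun θ (_ : θ ∈ (Finset.univ : Finset (Fin n → Bool))) => key θ)
  simp only [Finset.sum_add_distrib] at this
  rw [hc, hk, hj, hi] at this
  linarith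

/-- the exchange of the two families of signs where `θ` is false -/
private def decSw (θ : Fin n → Bool) (q : (Fin n → Bool) × (Fin n → Bool)) : (Fin n → Bool) × (Fin n → Bool) :=
  (fun i => if θ i = true then q.1 i else q.2 i, fun i => if θ i = true then q.2 i else q.1 i)

private theorem decSw_inv (θ : Fin n → Bool) : Function.Involutive (decSw θ) := by
  intro q
  unfold decSw
  refine Prod.ext ?_ ?_ <;> funext k <;> by_cases h : θ k = true <;> simp [h]

theorem decouple {X : Type} (Q : Fin n → Fin n → X → ℝ) (N : (Fin n → Bool) → (Fin n → Bool) → (Fin n → Bool) → ℝ)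
    {B : ℝ}
    (h1 : ∀ θ e η x, |∑ i, ∑ j, (if θ i = true ∧ θ j = false then sg (e i) * sg (η j) * Q i j x else 0)| ≤ N θ e η)
    (h2 : ∀ θ, ∑ e : Fin n → Bool, ∑ η : Fin n → Bool, N θ e η ≤ 2 ^ n * 2 ^ n * B) :
    ∃ N' : (Fin n → Bool) → ℝ,
      (∀ ε x, |∑ i, ∑ j, (if i ≠ j then sg (ε i) * sg (ε j) * Q i j x else 0)| ≤ N' ε) ∧
      ∑ ε : Fin n → Bool, N' ε ≤ 2 ^ n * (4 * B) := by
  have hp : (0 : ℝ) < 2 ^ n := by positivity
  have hc : ((2 : ℝ) ^ n)⁻¹ * 2 ^ n = 1 := inv_mul_cancel₀ hp.ne'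
  refine ⟨fun ε => 4 * ((2 : ℝ) ^ n)⁻¹ * ∑ θ : Fin n → Bool, ((2 : ℝ) ^ n)⁻¹ * ∑ ω : Fin n → Bool,
    N θ (decSw θ (ε, ω)).1 (decSw θ (ε, ω)).2, ?_, ?_⟩
  · intro ε x
    have e1 : ∑ i, ∑ j, (if i ≠ j then sg (ε i) * sg (ε j) * Q i j x else 0) =
        4 * ((2 : ℝ) ^ n)⁻¹ * ∑ θ : Fin n → Bool,
          ∑ i, ∑ j, (if θ i = true ∧ θ j = false then sg (ε i) * sg (ε j) * Q i j x else 0) := by
      rw [Finset.sum_comm (s := (Finset.univ : Finset (Fin n → Bool))), Finset.mul_sum]
      refine Finset.sum_congr rfl fun i _ => ?_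
      rw [Finset.sum_comm (s := (Finset.univ : Finset (Fin n → Bool))), Finset.mul_sum]
      refine Finset.sum_congr rfl fun j _ => ?_
      by_cases hij : i = j
      · rw [if_neg (by simpa using hij)]
        symm
        refine mul_eq_zero_of_right _ (Finset.sum_eq_zero fun θ _ => ?_)
        rw [if_neg]
        rintro ⟨h, h'⟩
        rw [hij, h'] at h
        exact Bool.noConfusion h
      · rw [if_pos hij]
        have hcount := dec_count hij
        have e2 : ∑ θ : Fin n → Bool, (if θ i = true ∧ θ j = false then sg (ε i) * sg (ε j) * Q i j x else 0)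
            = (sg (ε i) * sg (ε j) * Q i j x) *
              ∑ θ : Fin n → Bool, (if θ i = true ∧ θ j = false then (1 : ℝ) else 0) := by
          rw [Finset.mul_sum]
          refine Finset.sum_congr rfl fun θ _ => ?_
          rw [mul_ite, mul_one, mul_zero]
        rw [e2]
        calc sg (ε i) * sg (ε j) * Q i j x = (sg (ε i) * sg (ε j) * Q i j x) * (((2 : ℝ) ^ n)⁻¹ * 2 ^ n) := by
              rw [hc, mul_one]
          _ = _ := by rw [← hcount]; ring
    rw [e1, abs_mul, abs_of_nonneg (by positivity : (0 : ℝ) ≤ 4 * ((2 : ℝ) ^ n)⁻¹)]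
    refine mul_le_mul_of_nonneg_left ?_ (by positivity)
    refine (Finset.abs_sum_le_sum_abs _ _).trans (Finset.sum_le_sum fun θ _ => ?_)
    have hω : ∀ ω : Fin n → Bool,
        |∑ i, ∑ j, (if θ i = true ∧ θ j = false then sg (ε i) * sg (ε j) * Q i j x else 0)| ≤
          N θ (decSw θ (ε, ω)).1 (decSw θ (ε, ω)).2 := by
      intro ω
      refine le_trans (le_of_eq ?_) (h1 θ (decSw θ (ε, ω)).1 (decSw θ (ε, ω)).2 x)
      refine congrArg _ (Finset.sum_congr rfl fun i _ => Finset.sum_congr rfl fun j _ => ?_)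
      by_cases h : θ i = true ∧ θ j = false
      · rw [if_pos h, if_pos h]
        have a1 : (decSw θ (ε, ω)).1 i = ε i := by unfold decSw; simp [h.1]
        have a2 : (decSw θ (ε, ω)).2 j = ε j := by unfold decSw; simp [h.2]
        rw [a1, a2]
      · rw [if_neg h, if_neg h]
    have hs := Finset.sum_le_sum (fun ω (_ : ω ∈ (Finset.univ : Finset (Fin n → Bool))) => hω ω)
    rw [Finset.sum_const, Finset.card_univ, Fintype.card_fun, Fintype.card_bool, Fintype.card_fin, nsmul_eq_mul] at hs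
    push_cast at hs
    rw [le_inv_mul_iff₀ hp]
    exact hs
  · have e3 : ∀ θ : Fin n → Bool, ∑ ε : Fin n → Bool, ∑ ω : Fin n → Bool, N θ (decSw θ (ε, ω)).1 (decSw θ (ε, ω)).2
        = ∑ e : Fin n → Bool, ∑ η : Fin n → Bool, N θ e η := by
      intro θ
      rw [← Fintype.sum_prod_type' (f := fun ε ω : Fin n → Bool => N θ (decSw θ (ε, ω)).1 (decSw θ (ε, ω)).2),
        ← Fintype.sum_prod_type' (f := fun e η : Fin n → Bool => N θ e η)]
      exact Equiv.sum_comp ((decSw_inv θ).toPerm _) (fun q : (Fin n → Bool) × (Fin n → Bool) => N θ q.1 q.2)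
    rw [← Finset.mul_sum, Finset.sum_comm]
    have e4 : ∀ θ : Fin n → Bool, ∑ ε : Fin n → Bool, ((2 : ℝ) ^ n)⁻¹ *
        ∑ ω : Fin n → Bool, N θ (decSw θ (ε, ω)).1 (decSw θ (ε, ω)).2 ≤ 2 ^ n * B := by
      intro θ
      rw [← Finset.mul_sum, e3 θ, inv_mul_le_iff₀ hp]
      have := h2 θ
      linarith
    have hs := Finset.sum_le_sum (fun θ (_ : θ ∈ (Finset.univ : Finset (Fin n → Bool))) => e4 θ)
    rw [Finset.sum_const, Finset.card_univ, Fintype.card_fun, Fintype.card_bool, Fintype.card_fin, nsmul_eq_mul] at hs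
    push_cast at hs
    have := mul_le_mul_of_nonneg_left hs (by positivity : (0 : ℝ) ≤ 4 * ((2 : ℝ) ^ n)⁻¹)
    refine this.trans (le_of_eq ?_)
    calc 4 * ((2 : ℝ) ^ n)⁻¹ * (2 ^ n * (2 ^ n * B)) = 4 * (((2 : ℝ) ^ n)⁻¹ * 2 ^ n) * (2 ^ n * B) := by ring
      _ = 2 ^ n * (4 * B) := by rw [hc]; ring

theorem half_le {r d : ℕ} (hr : r ≠ 0) {p : ℝ} (hp : 0 < p) (T : Fin n → (Fin r → Fin d) → ℝ) (θ : Fin n → Bool) :
    ∑ η : Fin n → Bool, injNorm p (∑ j, sg (η j) • (if θ j = false then T j else 0)) ≤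
      ∑ ε : Fin n → Bool, injNorm p (∑ j, sg (ε j) • T j) := by
  have hinv : Function.Involutive (fun η : Fin n → Bool => fun k => if θ k = true then !η k else η k) := by
    intro η
    funext k
    by_cases h : θ k = true <;> simp [h]
  have e1 := Equiv.sum_comp (hinv.toPerm _) (fun ε : Fin n → Bool => injNorm p (∑ j, sg (ε j) • T j))
  have hη : ∀ η : Fin n → Bool, injNorm p (∑ j, sg (η j) • (if θ j = false then T j else 0)) ≤
      (injNorm p (∑ j, sg (η j) • T j) + injNorm p (∑ j, sg (hinv.toPerm _ η j) • T j)) / 2 := by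
    intro η
    have n1 := injNorm_nonneg hp (∑ j, sg (η j) • T j)
    have n2 := injNorm_nonneg hp (∑ j, sg (hinv.toPerm _ η j) • T j)
    refine injNorm_le hp (by linarith) fun x => ?_
    have p1 := pairing_le hp hr (∑ j, sg (η j) • T j) x
    have p2 := pairing_le hp hr (∑ j, sg (hinv.toPerm _ η j) • T j) x
    have e2 : pairing (∑ j, sg (η j) • (if θ j = false then T j else 0)) x =
        (pairing (∑ j, sg (η j) • T j) x + pairing (∑ j, sg (hinv.toPerm _ η j) • T j) x) / 2 := by
      rw [pairing_sum, pairing_sum, pairing_sum, ← Finset.sum_add_distrib, Finset.sum_div]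
      refine Finset.sum_congr rfl fun j _ => ?_
      simp only [Function.Involutive.coe_toPerm]
      cases h : θ j
      · simp
      · have z : pairing (0 : (Fin r → Fin d) → ℝ) x = 0 := by unfold pairing; simp
        have zz : sg (!η j) = - sg (η j) := by unfold sg; cases η j <;> simp
        simp only [if_true, reduceCtorEq, if_false, z, zz]
        ring
    rw [e2, abs_div, abs_of_pos (by norm_num : (0 : ℝ) < 2), div_le_iff₀ (by norm_num)]
    have := abs_add_le (pairing (∑ j, sg (η j) • T j) x) (pairing (∑ j, sg (hinv.toPerm _ η j) • T j) x)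
    linarith
  refine (Finset.sum_le_sum fun η _ => hη η).trans (le_of_eq ?_)
  rw [← Finset.sum_div, Finset.sum_add_distrib, e1]
  ring

end Pool.Agent.InjC
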