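import Pool.Agent.InjB.Uni

/-!
# MP_e7fc82_pr, cubes of the Euclidean space: definitions (helper41)

For an array `T` of order three: `mx T x` is the matrix `T (·, ·, x)`, `vx T x` the vector `T (·, x, x)`, and `quad T S` the array
of order four `∑ u, T (k 0, k 2, u) S (k 1, k 3, u)`, whose rows are the slots `0, 1` and whose columns are the slots `2, 3`.
-/

namespace Pool.Agent.InjC

open Finset MeasureTheory ProbabilityTheory Matrix
open Pool.Agent.InjP Pool.Agent.InjB
open Pool.Agent.SymASQ (sg)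

/-- the matrix `T (·, ·, x)` -/
def mx {d : ℕ} (T : (Fin 3 → Fin d) → ℝ) (x : Fin d → ℝ) : Matrix (Fin d) (Fin d) ℝ :=
  Matrix.of fun a b => ∑ c, T ![a, b, c] * x c

/-- the vector `T (·, x, x)` -/
def vx {d : ℕ} (T : (Fin 3 → Fin d) → ℝ) (x : Fin d → ℝ) : Fin d → ℝ := mx T x *ᵥ x

/-- the contraction of two arrays of order three in one index -/
def quad {d : ℕ} (T S : (Fin 3 → Fin d) → ℝ) : (Fin (2 + 2) → Fin d) → ℝ :=
  fun k => ∑ u, T ![k 0, k 2, u] * S ![k 1, k 3, u]

/-- sums over the indices of an array of order three -/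
theorem sum_three {d : ℕ} (f : (Fin 3 → Fin d) → ℝ) : ∑ k, f k = ∑ a, ∑ b, ∑ c, f ![a, b, c] := by
  rw [← (Fin.consEquiv (fun _ => Fin d)).sum_comp, Fintype.sum_prod_type]
  refine Finset.sum_congr rfl fun a _ => ?_
  rw [← (Fin.consEquiv (fun _ => Fin d)).sum_comp, Fintype.sum_prod_type]
  refine Finset.sum_congr rfl fun b _ => ?_
  rw [← (Fin.consEquiv (fun _ => Fin d)).sum_comp, Fintype.sum_prod_type]
  refine Finset.sum_congr rfl fun c _ => ?_
  rw [Fintype.sum_unique]
  rfl

/-- sums over the indices of an array of order two -/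
theorem sum_two {d : ℕ} (f : (Fin 2 → Fin d) → ℝ) : ∑ k, f k = ∑ a, ∑ b, f ![a, b] := by
  rw [← (Fin.consEquiv (fun _ => Fin d)).sum_comp, Fintype.sum_prod_type]
  refine Finset.sum_congr rfl fun a _ => ?_
  rw [← (Fin.consEquiv (fun _ => Fin d)).sum_comp, Fintype.sum_prod_type]
  refine Finset.sum_congr rfl fun b _ => ?_
  rw [Fintype.sum_unique]
  rfl

end Pool.Agent.InjC
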