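import Pool.Agent.InjC.Tri

/-!
# MP_e7fc82_pr, cubes, module KF: the flattening (helper41)

If `∑ injNorm² = 0`, all `injNorm 2 (T i) = 0`, `mx (T i) x = 0` (`mx_hs`, homogeneity in `x` is not needed: only `∑ x² ≤ 1`
occurs) and `N = 0`. Otherwise use `snck` (InjB/SNCK.lean) for `P = Fin d ⊕ (Fin d × Fin d)`,
`A i = Matrix.fromBlocks 0 (F i)ᵀ (F i) 0`, `F i : Matrix (Fin d × Fin d) (Fin d) ℝ := of fun ab c => T i ![ab.1, ab.2, c]`, so
`F i *ᵥ x = uncurried mx (T i) x`; for `ψ = Sum.elim ((√2)⁻¹ • x) ((√2)⁻¹ • y)`, `|x|, |y| ≤ 1`: `ψ ⬝ᵥ (A i *ᵥ ψ) = y ⬝ᵥ (F i *ᵥ x)`,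
`|A i ψ|² = 1/2 (|F i x|² + |(F i)ᵀ y|²) ≤ d (27 τ_i)²` (`mx_hs`; the bound for `(F i)ᵀ` follows from the one for `F i` by
Cauchy-Schwarz: `|Fᵀ y|² = y ⬝ᵥ F (Fᵀ y) ≤ |y| |F (Fᵀ y)| ≤ √(d (27 τ)²) |Fᵀ y|`, where `mx_hs` is used after scaling).
`V = 729 d ∑ τ_i²`, `card P = d + d²`, `8 * 27 * √2 ≤ 320`, `1 + log (d + d²) ≤ 2 (1 + log d)` (`d + d² ≤ 2 d²`, `log 2 ≤ 1`).
Finally `y` = the normalised `F x`, `F = ∑ sg (e i) F i`, gives `|F x| ≤ N e`.
-/

namespace Pool.Agent.InjC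

open Finset MeasureTheory ProbabilityTheory Matrix
open Pool.Agent.InjP Pool.Agent.InjB
open Pool.Agent.SymASQ (sg)

variable {d n : ℕ}

/-- the flattening -/
private def KFm (T : (Fin 3 → Fin d) → ℝ) : Matrix (Fin d × Fin d) (Fin d) ℝ :=
  Matrix.of fun ab c => T ![ab.1, ab.2, c]

private theorem KF_mul (T : (Fin 3 → Fin d) → ℝ) (x : Fin d → ℝ) (ab : Fin d × Fin d) :
    (KFm T *ᵥ x) ab = mx T x ab.1 ab.2 := rfl

private theorem KF_sq (T : (Fin 3 → Fin d) → ℝ) (x : Fin d → ℝ) :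
    ∑ ab, (KFm T *ᵥ x) ab ^ 2 = ∑ a, ∑ b, mx T x a b ^ 2 := by
  rw [Fintype.sum_prod_type]
  rfl

private theorem KF_le {T : (Fin 3 → Fin d) → ℝ} (hT : IsSymT T) (x : Fin d → ℝ) :
    ∑ ab, (KFm T *ᵥ x) ab ^ 2 ≤ (d : ℝ) * (27 * injNorm 2 T) ^ 2 * ∑ i, x i ^ 2 := by
  set s := ∑ i, x i ^ 2 with hs
  have hs0 : 0 ≤ s := Finset.sum_nonneg fun i _ => sq_nonneg _
  rcases hs0.eq_or_lt with h0 | h0
  · have hx : x = 0 := by
      funext i
      have h1 := (Finset.sum_eq_zero_iff_of_nonneg (fun i _ => sq_nonneg (x i))).1 (hs ▸ h0.symm) i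
        (Finset.mem_univ i)
      exact pow_eq_zero_iff (two_ne_zero) |>.1 h1
    rw [hx, Matrix.mulVec_zero, ← h0]
    simp
  · set c := (Real.sqrt s)⁻¹ with hc
    have hsq : Real.sqrt s ^ 2 = s := Real.sq_sqrt hs0
    have hss : 0 < Real.sqrt s := Real.sqrt_pos.2 h0
    have hc2 : c ^ 2 * s = 1 := by
      rw [hc, inv_pow, hsq, inv_mul_cancel₀ h0.ne']
    have h1 : ∑ i, (c • x) i ^ 2 ≤ 1 := by
      have : ∑ i, (c • x) i ^ 2 = c ^ 2 * s := by
        rw [hs, Finset.mul_sum]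
        refine Finset.sum_congr rfl fun i _ => ?_
        rw [Pi.smul_apply, smul_eq_mul, mul_pow]
      rw [this, hc2]
    have h2 := mx_hs hT h1
    rw [← KF_sq, Matrix.mulVec_smul] at h2
    have h3 : ∑ ab, (c • (KFm T *ᵥ x)) ab ^ 2 = c ^ 2 * ∑ ab, (KFm T *ᵥ x) ab ^ 2 := by
      rw [Finset.mul_sum]
      refine Finset.sum_congr rfl fun i _ => ?_
      rw [Pi.smul_apply, smul_eq_mul, mul_pow]
    rw [h3] at h2
    have h4 := mul_le_mul_of_nonneg_right h2 hs0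
    calc ∑ ab, (KFm T *ᵥ x) ab ^ 2 = c ^ 2 * s * ∑ ab, (KFm T *ᵥ x) ab ^ 2 := by rw [hc2, one_mul]
      _ = c ^ 2 * (∑ ab, (KFm T *ᵥ x) ab ^ 2) * s := by ring
      _ ≤ _ := h4

private theorem KF_tr {T : (Fin 3 → Fin d) → ℝ} (hT : IsSymT T) (y : Fin d × Fin d → ℝ)
    (hy : ∑ ab, y ab ^ 2 ≤ 1) :
    ∑ c, ((KFm T)ᵀ *ᵥ y) c ^ 2 ≤ (d : ℝ) * (27 * injNorm 2 T) ^ 2 := by
  set z := (KFm T)ᵀ *ᵥ y with hz
  set s := ∑ c, z c ^ 2 with hs
  set K := (d : ℝ) * (27 * injNorm 2 T) ^ 2 with hK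
  have hs0 : 0 ≤ s := Finset.sum_nonneg fun i _ => sq_nonneg _
  have hK0 : 0 ≤ K := by positivity
  have h1 : s = ∑ ab, y ab * (KFm T *ᵥ z) ab := by
    have h2 : z ⬝ᵥ z = y ⬝ᵥ (KFm T *ᵥ z) := by
      nth_rewrite 1 [hz]
      rw [Matrix.mulVec_transpose, ← Matrix.dotProduct_mulVec]
    rw [hs]
    calc ∑ c, z c ^ 2 = z ⬝ᵥ z := by
          unfold dotProduct
          exact Finset.sum_congr rfl fun i _ => by ring
      _ = _ := h2
  have h2 : s ^ 2 ≤ (∑ ab, y ab ^ 2) * ∑ ab, (KFm T *ᵥ z) ab ^ 2 := by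
    rw [h1]
    exact Finset.sum_mul_sq_le_sq_mul_sq _ _ _
  have h3 := KF_le hT z
  have h4 : 0 ≤ ∑ ab, (KFm T *ᵥ z) ab ^ 2 := Finset.sum_nonneg fun i _ => sq_nonneg _
  have h5 : s ^ 2 ≤ K * s := by
    calc s ^ 2 ≤ (∑ ab, y ab ^ 2) * ∑ ab, (KFm T *ᵥ z) ab ^ 2 := h2
      _ ≤ 1 * ∑ ab, (KFm T *ᵥ z) ab ^ 2 := mul_le_mul_of_nonneg_right hy h4
      _ = ∑ ab, (KFm T *ᵥ z) ab ^ 2 := one_mul _
      _ ≤ K * s := h3
  rcases hs0.eq_or_lt with h0 | h0
  · rw [← h0]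
    exact hK0
  · rw [pow_two] at h5
    exact le_of_mul_le_mul_right h5 h0

private theorem KF_log (hd : 1 ≤ d) :
    Real.sqrt (1 + Real.log ((d + d * d : ℕ) : ℝ)) ≤ Real.sqrt 2 * Real.sqrt (1 + Real.log d) := by
  rw [← Real.sqrt_mul (by norm_num)]
  apply Real.sqrt_le_sqrt
  have hd1 : (1 : ℝ) ≤ d := by exact_mod_cast hd
  have hd0 : (0 : ℝ) < d := by linarith
  have h1 : ((d + d * d : ℕ) : ℝ) ≤ 2 * ((d : ℝ) * d) := by
    push_cast
    nlinarith
  have h2 : (0 : ℝ) < ((d + d * d : ℕ) : ℝ) := by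
    push_cast
    positivity
  have h3 := Real.log_le_log h2 h1
  rw [Real.log_mul (by norm_num) (by positivity), Real.log_mul hd0.ne' hd0.ne'] at h3
  have h4 : Real.log 2 ≤ 1 := by
    have := Real.log_two_lt_d9
    linarith
  linarith

theorem flat_bound (hd : 1 ≤ d) {T : Fin n → (Fin 3 → Fin d) → ℝ} (hT : ∀ i, IsSymT (T i)) :
    ∃ N : (Fin n → Bool) → ℝ, (∀ e, 0 ≤ N e) ∧
      (∀ e, ∀ x : Fin d → ℝ, ∑ i, x i ^ 2 ≤ 1 →
        ∑ a, ∑ b, mx (∑ i, sg (e i) • T i) x a b ^ 2 ≤ N e ^ 2) ∧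
      ∑ e : Fin n → Bool, N e ≤ 2 ^ n * (320 * Real.sqrt (1 + Real.log d) * Real.sqrt d *
        Real.sqrt (∑ i, injNorm 2 (T i) ^ 2)) := by
  set τ : ℝ := ∑ i, injNorm 2 (T i) ^ 2 with hτ
  have hτ0 : 0 ≤ τ := Finset.sum_nonneg fun i _ => sq_nonneg _
  have hlin : ∀ (e : Fin n → Bool) (x : Fin d → ℝ) (a b : Fin d),
      mx (∑ i, sg (e i) • T i) x a b = ∑ i, sg (e i) * mx (T i) x a b := by
    intro e x a b
    rw [mx_linear]
    simp [Matrix.sum_apply]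
  rcases hτ0.eq_or_lt with h0 | h0
  · refine ⟨fun _ => 0, fun _ => le_rfl, fun e x hx => ?_, ?_⟩
    · have h1 : ∀ i a b, mx (T i) x a b = 0 := by
        intro i a b
        have h2 : injNorm 2 (T i) = 0 := by
          have h3 := (Finset.sum_eq_zero_iff_of_nonneg (fun i _ => sq_nonneg (injNorm 2 (T i)))).1
            (hτ ▸ h0.symm) i (Finset.mem_univ i)
          exact (pow_eq_zero_iff two_ne_zero).1 h3
        have h3 := mx_hs (hT i) hx
        rw [h2, mul_zero, zero_pow two_ne_zero, mul_zero] at h3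
        have h4 : ∀ a, 0 ≤ ∑ b, mx (T i) x a b ^ 2 :=
          fun a => Finset.sum_nonneg fun b _ => sq_nonneg _
        have h5 := le_antisymm h3 (Finset.sum_nonneg fun a _ => h4 a)
        have h6 := (Finset.sum_eq_zero_iff_of_nonneg (fun a _ => h4 a)).1 h5 a (Finset.mem_univ a)
        have h7 := (Finset.sum_eq_zero_iff_of_nonneg (fun b _ => sq_nonneg (mx (T i) x a b))).1 h6 b
          (Finset.mem_univ b)
        exact (pow_eq_zero_iff two_ne_zero).1 h7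
      have h2 : ∀ a b, mx (∑ i, sg (e i) • T i) x a b = 0 := by
        intro a b
        rw [hlin]
        exact Finset.sum_eq_zero fun i _ => by rw [h1, mul_zero]
      simp [h2]
    · rw [Finset.sum_const_zero]
      positivity
  have hd0 : (0 : ℝ) < d := by exact_mod_cast hd
  set V : ℝ := 729 * d * τ with hV
  have hV0 : 0 < V := by positivity
  have : Nonempty (Fin d) := ⟨⟨0, hd⟩⟩
  set A : Fin n → Matrix (Fin d ⊕ (Fin d × Fin d)) (Fin d ⊕ (Fin d × Fin d)) ℝ :=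
    fun i => Matrix.fromBlocks 0 (KFm (T i))ᵀ (KFm (T i)) 0 with hA
  have hAs : ∀ i, (A i)ᵀ = A i := by
    intro i
    rw [hA]
    simp only [Matrix.fromBlocks_transpose, Matrix.transpose_zero, Matrix.transpose_transpose]
  obtain ⟨N, hN0, hN1, hN2⟩ := snck hAs hV0
  refine ⟨N, hN0, fun e x hx => ?_, ?_⟩
  · -- the vector `F x`
    set w : Fin d × Fin d → ℝ := fun ab => ∑ i, sg (e i) * (KFm (T i) *ᵥ x) ab with hw
    have hwsq : ∑ a, ∑ b, mx (∑ i, sg (e i) • T i) x a b ^ 2 = ∑ ab, w ab ^ 2 := by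
      rw [Fintype.sum_prod_type]
      refine Finset.sum_congr rfl fun a _ => Finset.sum_congr rfl fun b _ => ?_
      rw [hlin]
      rfl
    rw [hwsq]
    set s := ∑ ab, w ab ^ 2 with hs
    have hs0 : 0 ≤ s := Finset.sum_nonneg fun i _ => sq_nonneg _
    rcases hs0.eq_or_lt with hs1 | hs1
    · rw [← hs1]
      exact sq_nonneg _
    set c := (Real.sqrt s)⁻¹ with hc
    have hsq : Real.sqrt s ^ 2 = s := Real.sq_sqrt hs0
    have hss : 0 < Real.sqrt s := Real.sqrt_pos.2 hs1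
    set y : Fin d × Fin d → ℝ := fun ab => c * w ab with hy
    have hy1 : ∑ ab, y ab ^ 2 = 1 := by
      have : ∑ ab, y ab ^ 2 = c ^ 2 * s := by
        rw [hs, Finset.mul_sum]
        refine Finset.sum_congr rfl fun i _ => ?_
        rw [hy, mul_pow]
      rw [this, hc, inv_pow, hsq, inv_mul_cancel₀ hs1.ne']
    set κ := (Real.sqrt 2)⁻¹ with hκ
    have hκ2 : κ * κ = 1 / 2 := by
      rw [hκ, ← mul_inv, Real.mul_self_sqrt (by norm_num)]
      norm_num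
    set ψ : Fin d ⊕ (Fin d × Fin d) → ℝ := Sum.elim (fun i => κ * x i) (fun ab => κ * y ab) with hψ
    have hmul1 : ∀ i (c : Fin d), (A i *ᵥ ψ) (Sum.inl c) = κ * ((KFm (T i))ᵀ *ᵥ y) c := by
      intro i c
      rw [hA]
      simp only [Matrix.fromBlocks_mulVec, Sum.elim_inl, Matrix.zero_mulVec, zero_add]
      have : (ψ ∘ Sum.inr : Fin d × Fin d → ℝ) = κ • y := by
        funext ab
        rfl
      rw [this, Matrix.mulVec_smul]
      rfl
    have hmul2 : ∀ i (ab : Fin d × Fin d), (A i *ᵥ ψ) (Sum.inr ab) = κ * (KFm (T i) *ᵥ x) ab := by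
      intro i ab
      rw [hA]
      simp only [Matrix.fromBlocks_mulVec, Sum.elim_inr, Matrix.zero_mulVec, add_zero]
      have : (ψ ∘ Sum.inl : Fin d → ℝ) = κ • x := by
        funext i
        rfl
      rw [this, Matrix.mulVec_smul]
      rfl
    have hψ1 : ψ ⬝ᵥ ψ ≤ 1 := by
      have h1 : ψ ⬝ᵥ ψ = κ * κ * ∑ i, x i ^ 2 + κ * κ * ∑ ab, y ab ^ 2 := by
        unfold dotProduct
        rw [Fintype.sum_sum_type, Finset.mul_sum, Finset.mul_sum]
        congr 1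
        · exact Finset.sum_congr rfl fun i _ => by
            show κ * x i * (κ * x i) = _
            ring
        · exact Finset.sum_congr rfl fun i _ => by
            show κ * y i * (κ * y i) = _
            ring
      rw [h1, hκ2, hy1]
      linarith
    have hψ2 : ∑ i, (A i *ᵥ ψ) ⬝ᵥ (A i *ᵥ ψ) ≤ V := by
      have h1 : ∀ i, (A i *ᵥ ψ) ⬝ᵥ (A i *ᵥ ψ) ≤ (d : ℝ) * (27 * injNorm 2 (T i)) ^ 2 := by
        intro i
        have h2 : (A i *ᵥ ψ) ⬝ᵥ (A i *ᵥ ψ) = κ * κ * ∑ c, ((KFm (T i))ᵀ *ᵥ y) c ^ 2 +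
            κ * κ * ∑ ab, (KFm (T i) *ᵥ x) ab ^ 2 := by
          unfold dotProduct
          rw [Fintype.sum_sum_type, Finset.mul_sum, Finset.mul_sum]
          congr 1
          · refine Finset.sum_congr rfl fun c _ => ?_
            rw [hmul1]
            ring
          · refine Finset.sum_congr rfl fun ab _ => ?_
            rw [hmul2]
            ring
        have h3 := KF_tr (hT i) y hy1.le
        have h4 := KF_le (hT i) x
        have h5 : (d : ℝ) * (27 * injNorm 2 (T i)) ^ 2 * ∑ i, x i ^ 2 ≤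
            (d : ℝ) * (27 * injNorm 2 (T i)) ^ 2 * 1 :=
          mul_le_mul_of_nonneg_left hx (by positivity)
        rw [h2, hκ2]
        linarith
      refine (Finset.sum_le_sum fun i _ => h1 i).trans (le_of_eq ?_)
      rw [hV, hτ, Finset.mul_sum]
      exact Finset.sum_congr rfl fun i _ => by ring
    have hψ3 : ∀ i, ψ ⬝ᵥ (A i *ᵥ ψ) = ∑ ab, y ab * (KFm (T i) *ᵥ x) ab := by
      intro i
      have h1 : ψ ⬝ᵥ (A i *ᵥ ψ) = κ * κ * (x ⬝ᵥ ((KFm (T i))ᵀ *ᵥ y)) +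
          κ * κ * (y ⬝ᵥ (KFm (T i) *ᵥ x)) := by
        unfold dotProduct
        rw [Fintype.sum_sum_type, Finset.mul_sum, Finset.mul_sum]
        congr 1
        · refine Finset.sum_congr rfl fun c _ => ?_
          rw [hmul1]
          show κ * x c * _ = _
          ring
        · refine Finset.sum_congr rfl fun ab _ => ?_
          rw [hmul2]
          show κ * y ab * _ = _
          ring
      have h2 : x ⬝ᵥ ((KFm (T i))ᵀ *ᵥ y) = y ⬝ᵥ (KFm (T i) *ᵥ x) := by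
        rw [Matrix.mulVec_transpose, dotProduct_comm, ← Matrix.dotProduct_mulVec]
      rw [h1, h2, hκ2]
      unfold dotProduct
      ring
    have hfin := hN1 e ψ hψ1 hψ2
    have h6 : ∑ i, sg (e i) * (ψ ⬝ᵥ (A i *ᵥ ψ)) = Real.sqrt s := by
      calc ∑ i, sg (e i) * (ψ ⬝ᵥ (A i *ᵥ ψ)) = ∑ i, ∑ ab, y ab * (sg (e i) * (KFm (T i) *ᵥ x) ab) := by
            refine Finset.sum_congr rfl fun i _ => ?_
            rw [hψ3, Finset.mul_sum]
            exact Finset.sum_congr rfl fun ab _ => by ring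
        _ = ∑ ab, y ab * w ab := by
            rw [Finset.sum_comm]
            refine Finset.sum_congr rfl fun ab _ => ?_
            rw [← Finset.mul_sum]
        _ = c * s := by
            rw [hs, Finset.mul_sum]
            exact Finset.sum_congr rfl fun ab _ => by rw [hy]; ring
        _ = Real.sqrt s := by
            rw [hc, inv_mul_eq_div, Real.div_sqrt]
    rw [h6, abs_of_pos hss] at hfin
    rw [← hsq]
    exact pow_le_pow_left₀ hss.le hfin 2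
  · have hcard : Fintype.card (Fin d ⊕ (Fin d × Fin d)) = d + d * d := by
      rw [Fintype.card_sum, Fintype.card_prod, Fintype.card_fin]
    rw [hcard] at hN2
    have h2n : (0 : ℝ) < 2 ^ n := by positivity
    have h1 : ∑ e, N e ≤ 2 ^ n * (8 * Real.sqrt (1 + Real.log ((d + d * d : ℕ) : ℝ)) * Real.sqrt V) := by
      have h2 := mul_le_mul_of_nonneg_left hN2 h2n.le
      rw [← mul_assoc, mul_inv_cancel₀ h2n.ne', one_mul] at h2
      exact h2
    refine h1.trans (mul_le_mul_of_nonneg_left ?_ h2n.le)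
    have h2 : Real.sqrt V = 27 * (Real.sqrt d * Real.sqrt τ) := by
      rw [hV, ← Real.sqrt_mul hd0.le, mul_assoc, Real.sqrt_mul (by norm_num : (0 : ℝ) ≤ 729)]
      congr 1
      rw [show (729 : ℝ) = 27 ^ 2 by norm_num, Real.sqrt_sq (by norm_num)]
    have h3 := KF_log (d := d) hd
    have h4 : 0 ≤ Real.sqrt d * Real.sqrt τ := by positivity
    have h5 : Real.sqrt 2 ≤ 1.42 := by
      rw [Real.sqrt_le_left (by norm_num)]
      norm_num
    have h6 : 0 ≤ Real.sqrt (1 + Real.log d) := Real.sqrt_nonneg _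
    rw [h2]
    have h7 : Real.sqrt (1 + Real.log ((d + d * d : ℕ) : ℝ)) ≤ 1.42 * Real.sqrt (1 + Real.log d) :=
      h3.trans (mul_le_mul_of_nonneg_right h5 h6)
    calc 8 * Real.sqrt (1 + Real.log ((d + d * d : ℕ) : ℝ)) * (27 * (Real.sqrt d * Real.sqrt τ))
        = 216 * (Real.sqrt (1 + Real.log ((d + d * d : ℕ) : ℝ)) * (Real.sqrt d * Real.sqrt τ)) := by
          ring
      _ ≤ 216 * ((1.42 * Real.sqrt (1 + Real.log d)) * (Real.sqrt d * Real.sqrt τ)) :=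
          mul_le_mul_of_nonneg_left (mul_le_mul_of_nonneg_right h7 h4) (by norm_num)
      _ = 306.72 * (Real.sqrt (1 + Real.log d) * (Real.sqrt d * Real.sqrt τ)) := by ring
      _ ≤ 320 * (Real.sqrt (1 + Real.log d) * (Real.sqrt d * Real.sqrt τ)) :=
          mul_le_mul_of_nonneg_right (by norm_num) (mul_nonneg h6 h4)
      _ = _ := by ring

end Pool.Agent.InjC
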