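import Pool.Agent.InjC.One1

/-!
# MP_e7fc82_pr, cubes, module One2: the decoupled quadratic form for a fixed partition (helper45)
-/

namespace Pool.Agent.InjC

open Finset MeasureTheory ProbabilityTheory Matrix
open Pool.Agent.InjP Pool.Agent.InjB
open Pool.Agent.SymASQ (sg)

variable {d n : ℕ}

private theorem one2_zero_sym : IsSymT (0 : (Fin 3 → Fin d) → ℝ) := fun _ _ => rfl

private theorem one2_ite_sym {T : (Fin 3 → Fin d) → ℝ} (hT : IsSymT T) (P : Prop) [Decidable P] :
    IsSymT (if P then T else 0) := by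
  split_ifs
  · exact hT
  · exact one2_zero_sym

private theorem one2_sum_sym {T : Fin n → (Fin 3 → Fin d) → ℝ} (hT : ∀ i, IsSymT (T i)) (g : Fin n → ℝ) :
    IsSymT (∑ i, g i • T i) := by
  intro σ k
  simp only [Finset.sum_apply, Pi.smul_apply, smul_eq_mul]
  exact Finset.sum_congr rfl fun i _ => by rw [hT i σ k]

private theorem one2_vx_zero (x : Fin d → ℝ) : vx (0 : (Fin 3 → Fin d) → ℝ) x = 0 := by
  have h : mx (0 : (Fin 3 → Fin d) → ℝ) x = 0 := by
    ext a b
    simp [mx]
  rw [vx, h, Matrix.zero_mulVec]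

private theorem one2_injNorm_zero : injNorm 2 (0 : (Fin 3 → Fin d) → ℝ) = 0 := by
  refine le_antisymm (injNorm_le (by norm_num) le_rfl fun x => ?_) (injNorm_nonneg (by norm_num) _)
  simp [pairing]

private theorem one2_sq_le (T : Fin n → (Fin 3 → Fin d) → ℝ) (P : Fin n → Prop) [DecidablePred P] :
    ∑ i, injNorm 2 (if P i then T i else 0) ^ 2 ≤ ∑ i, injNorm 2 (T i) ^ 2 := by
  refine Finset.sum_le_sum fun i _ => ?_
  split_ifs
  · exact le_rfl
  · rw [one2_injNorm_zero, zero_pow two_ne_zero]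
    exact sq_nonneg _

private theorem one2_point (T : Fin n → (Fin 3 → Fin d) → ℝ) (θ e η : Fin n → Bool) (x : Fin d → ℝ) :
    ∑ i, sg (e i) * (vx (if θ i = true then T i else 0) x ⬝ᵥ
      vx (∑ j, sg (η j) • (if θ j = false then T j else 0)) x) =
    ∑ i, ∑ j, (if θ i = true ∧ θ j = false then
          sg (e i) * sg (η j) * (vx (T i) x ⬝ᵥ vx (T j) x) else 0) := by
  refine Finset.sum_congr rfl fun i _ => ?_
  rw [vx_linear, dotProduct_sum, Finset.mul_sum]
  refine Finset.sum_congr rfl fun j _ => ?_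
  rw [dotProduct_smul, smul_eq_mul]
  by_cases h1 : θ i = true <;> by_cases h2 : θ j = false
  · rw [if_pos h1, if_pos h2, if_pos ⟨h1, h2⟩]
    ring
  · rw [if_neg h2, if_neg (show ¬(θ i = true ∧ θ j = false) from fun h => h2 h.2), one2_vx_zero, dotProduct_zero,
      mul_zero, mul_zero]
  · rw [if_neg h1, if_neg (show ¬(θ i = true ∧ θ j = false) from fun h => h1 h.1), one2_vx_zero, zero_dotProduct,
      mul_zero, mul_zero]
  · rw [if_neg h1, if_neg (show ¬(θ i = true ∧ θ j = false) from fun h => h1 h.1), one2_vx_zero, zero_dotProduct,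
      mul_zero, mul_zero]

theorem one_bound (hd : 1 ≤ d) {q : ℕ} (hq : 1 ≤ q) {T : Fin n → (Fin 3 → Fin d) → ℝ} (hT : ∀ i, IsSymT (T i))
    (hW : 0 < ∑ i, injNorm 2 (T i) ^ 2) (θ : Fin n → Bool) :
    ∃ N : (Fin n → Bool) → (Fin n → Bool) → ℝ,
      (∀ e η, ∀ x : {x : Fin d → ℝ // ∑ i, x i ^ 2 = 1},
        |∑ i, ∑ j, (if θ i = true ∧ θ j = false then
          sg (e i) * sg (η j) * (vx (T i) x.1 ⬝ᵥ vx (T j) x.1) else 0)| ≤ N e η) ∧
      ∑ e : Fin n → Bool, ∑ η : Fin n → Bool, N e η ≤ 2 ^ n * 2 ^ n *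
        (216 * Real.sqrt (∑ i, injNorm 2 (T i) ^ 2) * Real.sqrt (1 + 2 * q * Real.log d) *
          (54 * ((2 ^ n)⁻¹ * ∑ e : Fin n → Bool, injNorm 2 (∑ i, sg (e i) • T i)) +
            320 * Real.sqrt (1 + Real.log d) * Real.sqrt d * Real.sqrt (∑ i, injNorm 2 (T i) ^ 2) / q +
            Real.sqrt (∑ i, injNorm 2 (T i) ^ 2))) := by
  obtain ⟨Nf, hNf0, hNf1, hNf2⟩ := flat_bound (n := n) hd
    (T := fun j => if θ j = false then T j else 0) (fun j => one2_ite_sym (hT j) _)
  have hL := fun η : Fin n → Bool => lift_bound (n := n) hd hq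
    (T := fun i => if θ i = true then T i else 0) (fun i => one2_ite_sym (hT i) _)
    (S := ∑ j, sg (η j) • (if θ j = false then T j else 0))
    (one2_sum_sym (fun j => one2_ite_sym (hT j) _) fun j => sg (η j)) hW (one2_sq_le T fun i => θ i = true)
    (hNf0 η) (fun x hx => hNf1 η x hx)
  choose N hN0 hN1 hN2 using hL
  refine ⟨fun e η => N η e, fun e η x => ?_, ?_⟩
  · rw [← one2_point]
    exact hN1 η e x.1 x.2
  · rw [Finset.sum_comm]
    set W : ℝ := ∑ i, injNorm 2 (T i) ^ 2 with hWdef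
    set A : ℝ := 216 * Real.sqrt W * Real.sqrt (1 + 2 * q * Real.log d) with hA
    have hA0 : 0 ≤ A := by positivity
    set M : ℝ := ∑ e : Fin n → Bool, injNorm 2 (∑ i, sg (e i) • T i) with hM
    have hq0 : (0 : ℝ) < q := by exact_mod_cast hq
    have h1 : ∑ η : Fin n → Bool, injNorm 2 (∑ j, sg (η j) • (if θ j = false then T j else 0)) ≤ M :=
      half_le (by norm_num) (by norm_num) T θ
    have h2 : ∑ η : Fin n → Bool, Nf η ≤ 2 ^ n * (320 * Real.sqrt (1 + Real.log d) * Real.sqrt d *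
        Real.sqrt W) := by
      refine hNf2.trans ?_
      have h3 : Real.sqrt (∑ i, injNorm 2 (if θ i = false then T i else 0) ^ 2) ≤ Real.sqrt W :=
        Real.sqrt_le_sqrt (one2_sq_le T fun i => θ i = false)
      gcongr
    have h3 : ∑ η : Fin n → Bool, ∑ e : Fin n → Bool, N η e ≤ ∑ η : Fin n → Bool, 2 ^ n * (A *
        (54 * injNorm 2 (∑ j, sg (η j) • (if θ j = false then T j else 0)) + Nf η / q + Real.sqrt W)) :=
      Finset.sum_le_sum fun η _ => hN2 η
    refine h3.trans ?_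
    have h4 : ∑ η : Fin n → Bool, 2 ^ n * (A *
        (54 * injNorm 2 (∑ j, sg (η j) • (if θ j = false then T j else 0)) + Nf η / q + Real.sqrt W)) =
        2 ^ n * A * (54 * ∑ η : Fin n → Bool,
          injNorm 2 (∑ j, sg (η j) • (if θ j = false then T j else 0)) + (∑ η : Fin n → Bool, Nf η) / q +
          2 ^ n * Real.sqrt W) := by
      have h5 : ∑ η : Fin n → Bool, Real.sqrt W = 2 ^ n * Real.sqrt W := by
        rw [Finset.sum_const, Finset.card_univ, Fintype.card_fun, Fintype.card_bool, Fintype.card_fin,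
          nsmul_eq_mul]
        push_cast
        ring
      rw [← h5, Finset.sum_div, Finset.mul_sum, ← Finset.sum_add_distrib, ← Finset.sum_add_distrib,
        Finset.mul_sum]
      exact Finset.sum_congr rfl fun η _ => by ring
    rw [h4]
    have hpow : (0 : ℝ) < 2 ^ n := by positivity
    have h6 : 2 ^ n * 2 ^ n * (A * (54 * ((2 ^ n)⁻¹ * M) +
        320 * Real.sqrt (1 + Real.log d) * Real.sqrt d * Real.sqrt W / q + Real.sqrt W)) =
        2 ^ n * A * (54 * M + (2 ^ n * (320 * Real.sqrt (1 + Real.log d) * Real.sqrt d *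
          Real.sqrt W)) / q + 2 ^ n * Real.sqrt W) := by
      field_simp
    rw [h6]
    gcongr

end Pool.Agent.InjC
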