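import Pool.Agent.InjC.Quad
import Pool.Agent.InjC.BosSw
import Pool.Agent.InjC.KF
import Pool.Agent.InjC.Dec

/-!
# MP_e7fc82_pr, cubes, module One1: the lifted operators of the contracted arrays (proof helper72 for helper41)

`lift_bound`: `snck` for `P = Fin 2 → Fin q → Fin d`, `A i = bosM q (quad (T i) S)` and `ψ = bosV 2 q x`.
-/

namespace Pool.Agent.InjC

open Finset MeasureTheory ProbabilityTheory Matrix
open Pool.Agent.InjP Pool.Agent.InjB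
open Pool.Agent.SymASQ (sg)

variable {d n : ℕ}

private lemma One1_log_card (q : ℕ) :
    Real.log (Fintype.card (Fin 2 → Fin q → Fin d)) = 2 * q * Real.log d := by
  have h : Fintype.card (Fin 2 → Fin q → Fin d) = (d ^ q) ^ 2 := by
    rw [Fintype.card_fun, Fintype.card_fun, Fintype.card_fin, Fintype.card_fin, Fintype.card_fin]
  rw [h]
  push_cast
  rw [Real.log_pow, Real.log_pow]
  push_cast
  ring

private lemma One1_sqrt_le {b K' W : ℝ} (hb : 0 ≤ b) (hK : 0 ≤ K') (hW : 0 ≤ W) :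
    Real.sqrt (3 * b ^ 2 + K' ^ 2 + W) ≤ 2 * b + K' + Real.sqrt W := by
  apply Real.sqrt_le_iff.2
  have hs := Real.sqrt_nonneg W
  have hs2 := Real.sq_sqrt hW
  refine ⟨by positivity, ?_⟩
  nlinarith [mul_nonneg hb hK, mul_nonneg hb hs, mul_nonneg hK hs, sq_nonneg b]

theorem lift_bound (hd : 1 ≤ d) {q : ℕ} (hq : 1 ≤ q) {T : Fin n → (Fin 3 → Fin d) → ℝ} (hT : ∀ i, IsSymT (T i))
    {S : (Fin 3 → Fin d) → ℝ} (hS : IsSymT S) {W : ℝ} (hW : 0 < W) (hTW : ∑ i, injNorm 2 (T i) ^ 2 ≤ W)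
    {K : ℝ} (hK0 : 0 ≤ K) (hK : ∀ x : Fin d → ℝ, ∑ i, x i ^ 2 ≤ 1 → ∑ a, ∑ b, mx S x a b ^ 2 ≤ K ^ 2) :
    ∃ N : (Fin n → Bool) → ℝ, (∀ e, 0 ≤ N e) ∧
      (∀ e, ∀ x : Fin d → ℝ, ∑ i, x i ^ 2 = 1 → |∑ i, sg (e i) * (vx (T i) x ⬝ᵥ vx S x)| ≤ N e) ∧
      ∑ e : Fin n → Bool, N e ≤ 2 ^ n * (216 * Real.sqrt W * Real.sqrt (1 + 2 * q * Real.log d) *
        (54 * injNorm 2 S + K / q + Real.sqrt W)) := by
  have hq1 : (1 : ℝ) ≤ q := by exact_mod_cast hq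
  have hq0 : (0 : ℝ) < q := by linarith
  have : Nonempty (Fin d) := ⟨⟨0, by omega⟩⟩
  have hb0 : 0 ≤ injNorm 2 S := injNorm_nonneg (by norm_num) S
  set b : ℝ := 27 * injNorm 2 S with hb
  have hb0' : 0 ≤ b := by positivity
  set V : ℝ := (27 * (q : ℝ) ^ 2) ^ 2 * (W * (3 * b ^ 2 + (K / q) ^ 2 + W)) with hV
  have hV0 : 0 < V := by
    have : 0 < 3 * b ^ 2 + (K / q) ^ 2 + W := by positivity
    positivity
  obtain ⟨N, hN0, hN, hNs⟩ := snck (P := Fin 2 → Fin q → Fin d)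
    (A := fun i => bosM q (quad (T i) S))
    (fun i => bosM_transpose_of_swap (quad_swap (hT i) hS)) hV0
  refine ⟨fun e => N e / (q : ℝ) ^ 2, fun e => div_nonneg (hN0 e) (by positivity), ?_, ?_⟩
  · intro e x hx
    have h1 := hN e (bosV 2 q x) (bosV_dot hx).le ?_
    · have h2 : ∀ i, bosV 2 q x ⬝ᵥ (bosM q (quad (T i) S) *ᵥ bosV 2 q x) =
          (q : ℝ) ^ 2 * (vx (T i) x ⬝ᵥ vx S x) := by
        intro i
        rw [bosM_expect _ hx, quad_pairing (hT i) hS]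
      simp only [h2] at h1
      have h3 : ∑ i, sg (e i) * ((q : ℝ) ^ 2 * (vx (T i) x ⬝ᵥ vx S x)) =
          (q : ℝ) ^ 2 * ∑ i, sg (e i) * (vx (T i) x ⬝ᵥ vx S x) := by
        rw [Finset.mul_sum]
        exact Finset.sum_congr rfl fun i _ => by ring
      rw [h3, abs_mul, abs_of_pos (by positivity : (0 : ℝ) < (q : ℝ) ^ 2)] at h1
      rw [le_div_iff₀ (by positivity)]
      linarith
    · have h2 : ∀ i, (bosM q (quad (T i) S) *ᵥ bosV 2 q x) ⬝ᵥ (bosM q (quad (T i) S) *ᵥ bosV 2 q x) ≤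
          (27 * injNorm 2 (T i)) ^ 2 * (3 * (q : ℝ) ^ 4 * b ^ 2 + (q : ℝ) ^ 2 * K ^ 2) := by
        intro i
        exact (bosM_second (quad (T i) S) hx hq).trans
          (quad_ctr (hT i) hS hx.le (hK x hx.le) hq1)
      refine (Finset.sum_le_sum fun i _ => h2 i).trans ?_
      rw [← Finset.sum_mul]
      have h3 : ∑ i, (27 * injNorm 2 (T i)) ^ 2 = 729 * ∑ i, injNorm 2 (T i) ^ 2 := by
        rw [Finset.mul_sum]
        exact Finset.sum_congr rfl fun i _ => by ring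
      have h4 : (0 : ℝ) ≤ 3 * (q : ℝ) ^ 4 * b ^ 2 + (q : ℝ) ^ 2 * K ^ 2 := by positivity
      have h5 : V = 729 * W * (3 * (q : ℝ) ^ 4 * b ^ 2 + (q : ℝ) ^ 2 * K ^ 2) +
          729 * (q : ℝ) ^ 4 * W ^ 2 := by
        rw [hV]
        field_simp
        ring
      rw [h3, h5]
      have h6 : 729 * ∑ i, injNorm 2 (T i) ^ 2 ≤ 729 * W := by linarith
      have h7 := mul_le_mul_of_nonneg_right h6 h4
      have h8 : (0 : ℝ) ≤ 729 * (q : ℝ) ^ 4 * W ^ 2 := by positivity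
      linarith
  · rw [← Finset.sum_div, div_le_iff₀ (by positivity)]
    rw [inv_mul_le_iff₀ (by positivity), One1_log_card] at hNs
    have h1 : Real.sqrt V ≤ 27 * (q : ℝ) ^ 2 * (Real.sqrt W * (2 * b + K / q + Real.sqrt W)) := by
      rw [hV, Real.sqrt_mul (by positivity), Real.sqrt_sq (by positivity), Real.sqrt_mul hW.le]
      have := One1_sqrt_le hb0' (div_nonneg hK0 hq0.le) hW.le
      gcongr
    have hlog : 0 ≤ Real.sqrt (1 + 2 * q * Real.log d) := Real.sqrt_nonneg _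
    calc ∑ e, N e ≤ 2 ^ n * (8 * Real.sqrt (1 + 2 * q * Real.log d) * Real.sqrt V) := hNs
      _ ≤ 2 ^ n * (8 * Real.sqrt (1 + 2 * q * Real.log d) *
          (27 * (q : ℝ) ^ 2 * (Real.sqrt W * (2 * b + K / q + Real.sqrt W)))) := by gcongr
      _ = _ := by
        rw [hb]
        ring

end Pool.Agent.InjC
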