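import Pool.Agent.InjC.Tri

/-!
# MP_e7fc82_pr, cubes, module Quad: the contracted array of order four (helper41)

Notation: `w j = ∑ k, quad T S (append j k) x (k 0) x (k 1) = (mx T x * mx S x) (j 0) (j 1)` (as `mx S x` is symmetric).
`quad_pairing`: `∑ w j x (j 0) x (j 1)`. `quad_swap`: symmetry of `T` and `S` in the first two slots. `quad_ctr`: the sets
`C ⊆ {0, 1}`: `∅` gives `(vx T x ⬝ᵥ vx S x)²`, `{0}` gives `|mx T x *ᵥ vx S x|²`, `{1}` gives `|mx S x *ᵥ vx T x|²`, `{0, 1}` gives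
`∑ a b, ((mx T x * mx S x) a b)² ≤ (27 τ)² K²` (`hs_mul`, `mx_le`); `∑ vx S x ² ≤ b²`, `∑ (mx S x *ᵥ z)² ≤ b² ∑ z²`.
Use `sum_two`, `Sec1_append_sum` (InjB.Sec1), `Finset (Fin 2)` has the four elements (`Finset.sum` over `univ` by `decide`).
-/

namespace Pool.Agent.InjC

open Finset MeasureTheory ProbabilityTheory Matrix
open Pool.Agent.InjP Pool.Agent.InjB
open Pool.Agent.SymASQ (sg)

variable {d n : ℕ}

private theorem Quad_app (T S : (Fin 3 → Fin d) → ℝ) (j k : Fin 2 → Fin d) :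
    quad T S (Fin.append j k) = ∑ u, T ![j 0, k 0, u] * S ![j 1, k 1, u] := rfl

private theorem Quad_prod (y : Fin (2 + 2) → Fin d → ℝ) (j k : Fin 2 → Fin d) :
    ∏ i, y i (Fin.append j k i) = (y 0 (j 0) * y 1 (j 1)) * (y 2 (k 0) * y 3 (k 1)) := by
  rw [Fin.prod_univ_add, Fin.prod_univ_two, Fin.prod_univ_two]
  rfl

private theorem Quad_sym12 {T : (Fin 3 → Fin d) → ℝ} (hT : IsSymT T) (a b c : Fin d) :
    T ![a, b, c] = T ![a, c, b] := by
  have h := hT (Equiv.swap 1 2) ![a, b, c]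
  rw [← h]
  congr 1
  funext i
  fin_cases i <;> simp [Equiv.swap_apply_def]

private theorem Quad_sym01 {T : (Fin 3 → Fin d) → ℝ} (hT : IsSymT T) (a b c : Fin d) :
    T ![a, b, c] = T ![b, a, c] := by
  have h := hT (Equiv.swap 0 1) ![a, b, c]
  rw [← h]
  congr 1
  funext i
  fin_cases i <;> simp [Equiv.swap_apply_def]

private theorem Quad_ML {T S : (Fin 3 → Fin d) → ℝ} (hT : IsSymT T) (hS : IsSymT S)
    (y : Fin 2 → Fin d → ℝ) (x : Fin d → ℝ) :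
    ML (quad T S) (Fin.append y (fun _ => x)) =
      ∑ u, (∑ a, y 0 a * mx T x a u) * (∑ b, y 1 b * mx S x b u) := by
  unfold ML
  rw [Sec1_append_sum]
  have h1 : ∀ j k : Fin 2 → Fin d, quad T S (Fin.append j k) *
      ∏ i, (Fin.append y (fun _ => x) : Fin (2 + 2) → Fin d → ℝ) i (Fin.append j k i) =
      ∑ u, (y 0 (j 0) * (T ![j 0, u, k 0] * x (k 0))) * (y 1 (j 1) * (S ![j 1, u, k 1] * x (k 1))) := by
    intro j k
    rw [Quad_app, Quad_prod, Finset.sum_mul]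
    refine Finset.sum_congr rfl fun u _ => ?_
    rw [Quad_sym12 hT (j 0) (k 0) u, Quad_sym12 hS (j 1) (k 1) u]
    show T ![j 0, u, k 0] * S ![j 1, u, k 1] * ((y 0 (j 0) * y 1 (j 1)) * (x (k 0) * x (k 1))) = _
    ring
  simp only [h1]
  rw [sum_two]
  simp only [sum_two, Matrix.cons_val_zero, Matrix.cons_val_one]
  have h2 : ∀ u, (∑ a, y 0 a * mx T x a u) * (∑ b, y 1 b * mx S x b u) =
      ∑ a, ∑ b, ∑ c, ∑ e, (y 0 a * (T ![a, u, c] * x c)) * (y 1 b * (S ![b, u, e] * x e)) := by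
    intro u
    rw [Finset.sum_mul_sum]
    refine Finset.sum_congr rfl fun a _ => Finset.sum_congr rfl fun b _ => ?_
    show (y 0 a * ∑ c, T ![a, u, c] * x c) * (y 1 b * ∑ e, S ![b, u, e] * x e) = _
    rw [Finset.mul_sum, Finset.mul_sum, Finset.sum_mul_sum]
  simp only [h2]
  symm
  rw [Finset.sum_comm]
  refine Finset.sum_congr rfl fun a _ => ?_
  rw [Finset.sum_comm]
  refine Finset.sum_congr rfl fun b _ => ?_
  rw [Finset.sum_comm]
  refine Finset.sum_congr rfl fun c _ => ?_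
  rw [Finset.sum_comm]

private theorem Quad_vx {T : (Fin 3 → Fin d) → ℝ} (hT : IsSymT T) (x : Fin d → ℝ) (u : Fin d) :
    ∑ a, x a * mx T x a u = vx T x u := by
  show _ = ∑ b, mx T x u b * x b
  refine Finset.sum_congr rfl fun a _ => ?_
  have h : mx T x a u = mx T x u a := by
    have h1 := congrFun (congrFun (mx_transpose hT x) u) a
    exact h1
  rw [h, mul_comm]

theorem quad_pairing {T S : (Fin 3 → Fin d) → ℝ} (hT : IsSymT T) (hS : IsSymT S) (x : Fin d → ℝ) :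
    pairing (quad T S) x = vx T x ⬝ᵥ vx S x := by
  rw [pairing_eq_ML]
  have h1 : (fun _ => x : Fin (2 + 2) → Fin d → ℝ) = Fin.append (fun _ => x) (fun _ => x) := by
    funext i
    refine Fin.addCases (fun i => ?_) (fun i => ?_) i
    · rw [Fin.append_left]
    · rw [Fin.append_right]
  rw [h1, Quad_ML hT hS]
  simp only [Quad_vx hT, Quad_vx hS]
  rfl

theorem quad_swap {T S : (Fin 3 → Fin d) → ℝ} (hT : IsSymT T) (hS : IsSymT S) (j k : Fin 2 → Fin d) :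
    quad T S (Fin.append k j) = quad T S (Fin.append j k) := by
  rw [Quad_app, Quad_app]
  refine Finset.sum_congr rfl fun u _ => ?_
  rw [Quad_sym01 hT, Quad_sym01 hS]

private theorem Quad_single (M : Matrix (Fin d) (Fin d) ℝ) (i u : Fin d) :
    ∑ a, (Pi.single i (1 : ℝ) : Fin d → ℝ) a * M a u = M i u := by
  rw [Finset.sum_eq_single i]
  · rw [Pi.single_eq_same, one_mul]
  · intro b _ hb
    rw [Pi.single_eq_of_ne hb, zero_mul]
  · intro h
    exact absurd (Finset.mem_univ _) h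

private theorem Quad_ctr {T S : (Fin 3 → Fin d) → ℝ} (hT : IsSymT T) (hS : IsSymT S) (x : Fin d → ℝ)
    (C : Finset (Fin 2)) (i : {a // a ∈ C} → Fin d) :
    ctr (quad T S) x C i = ∑ u, (if h : (0 : Fin 2) ∈ C then mx T x (i ⟨0, h⟩) u else vx T x u) *
      (if h : (1 : Fin 2) ∈ C then mx S x (i ⟨1, h⟩) u else vx S x u) := by
  unfold ctr
  rw [Quad_ML hT hS]
  refine Finset.sum_congr rfl fun u _ => ?_
  congr 1
  · by_cases h : (0 : Fin 2) ∈ C
    · rw [dif_pos h]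
      simp only [dif_pos h]
      exact Quad_single (mx T x) _ _
    · rw [dif_neg h]
      simp only [dif_neg h]
      exact Quad_vx hT x u
  · by_cases h : (1 : Fin 2) ∈ C
    · rw [dif_pos h]
      simp only [dif_pos h]
      exact Quad_single (mx S x) _ _
    · rw [dif_neg h]
      simp only [dif_neg h]
      exact Quad_vx hS x u

private theorem Quad_c0 {T S : (Fin 3 → Fin d) → ℝ} (hT : IsSymT T) (hS : IsSymT S) (x : Fin d → ℝ) :
    ∑ i, ctr (quad T S) x ∅ i ^ 2 = (vx T x ⬝ᵥ vx S x) ^ 2 := by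
  have h1 : ∀ i, ctr (quad T S) x ∅ i = vx T x ⬝ᵥ vx S x := by
    intro i
    rw [Quad_ctr hT hS]
    refine Finset.sum_congr rfl fun u _ => ?_
    rw [dif_neg (by simp), dif_neg (by simp)]
  simp only [h1]
  rw [Finset.sum_const, Finset.card_univ]
  have : Fintype.card ({a : Fin 2 // a ∈ (∅ : Finset (Fin 2))} → Fin d) = 1 := by simp
  rw [this, one_smul]

private theorem Quad_c1 {T S : (Fin 3 → Fin d) → ℝ} (hT : IsSymT T) (hS : IsSymT S) (x : Fin d → ℝ) :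
    ∑ i, ctr (quad T S) x {0} i ^ 2 = ∑ a, (mx T x *ᵥ vx S x) a ^ 2 := by
  have h1 : ∀ i, ctr (quad T S) x {0} i = (mx T x *ᵥ vx S x) (i ⟨0, Finset.mem_singleton_self 0⟩) := by
    intro i
    rw [Quad_ctr hT hS]
    refine Finset.sum_congr rfl fun u _ => ?_
    rw [dif_pos (Finset.mem_singleton_self 0), dif_neg (by simp)]
  simp only [h1]
  let e : ({a : Fin 2 // a ∈ ({0} : Finset (Fin 2))} → Fin d) ≃ Fin d :=
    { toFun := fun i => i ⟨0, Finset.mem_singleton_self 0⟩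
      invFun := fun a _ => a
      left_inv := by
        intro i
        funext b
        have hb : (⟨0, Finset.mem_singleton_self 0⟩ : {a : Fin 2 // a ∈ ({0} : Finset (Fin 2))}) = b :=
          Subtype.ext (Finset.mem_singleton.1 b.2).symm
        show i ⟨0, Finset.mem_singleton_self 0⟩ = i b
        rw [hb]
      right_inv := fun _ => rfl }
  exact Equiv.sum_comp e (fun a => (mx T x *ᵥ vx S x) a ^ 2)

private theorem Quad_c2 {T S : (Fin 3 → Fin d) → ℝ} (hT : IsSymT T) (hS : IsSymT S) (x : Fin d → ℝ) :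
    ∑ i, ctr (quad T S) x {1} i ^ 2 = ∑ a, (mx S x *ᵥ vx T x) a ^ 2 := by
  have h1 : ∀ i, ctr (quad T S) x {1} i = (mx S x *ᵥ vx T x) (i ⟨1, Finset.mem_singleton_self 1⟩) := by
    intro i
    rw [Quad_ctr hT hS]
    refine Finset.sum_congr rfl fun u _ => ?_
    rw [dif_neg (by simp), dif_pos (Finset.mem_singleton_self 1), mul_comm]
  simp only [h1]
  let e : ({a : Fin 2 // a ∈ ({1} : Finset (Fin 2))} → Fin d) ≃ Fin d :=
    { toFun := fun i => i ⟨1, Finset.mem_singleton_self 1⟩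
      invFun := fun a _ => a
      left_inv := by
        intro i
        funext b
        have hb : (⟨1, Finset.mem_singleton_self 1⟩ : {a : Fin 2 // a ∈ ({1} : Finset (Fin 2))}) = b :=
          Subtype.ext (Finset.mem_singleton.1 b.2).symm
        show i ⟨1, Finset.mem_singleton_self 1⟩ = i b
        rw [hb]
      right_inv := fun _ => rfl }
  exact Equiv.sum_comp e (fun a => (mx S x *ᵥ vx T x) a ^ 2)

private theorem Quad_c3 {T S : (Fin 3 → Fin d) → ℝ} (hT : IsSymT T) (hS : IsSymT S) (x : Fin d → ℝ) :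
    ∑ i, ctr (quad T S) x {0, 1} i ^ 2 = ∑ a, ∑ b, (mx T x * mx S x) a b ^ 2 := by
  have m0 : (0 : Fin 2) ∈ ({0, 1} : Finset (Fin 2)) := by simp
  have m1 : (1 : Fin 2) ∈ ({0, 1} : Finset (Fin 2)) := by simp
  have h1 : ∀ i, ctr (quad T S) x {0, 1} i = (mx T x * mx S x) (i ⟨0, m0⟩) (i ⟨1, m1⟩) := by
    intro i
    rw [Quad_ctr hT hS, Matrix.mul_apply]
    refine Finset.sum_congr rfl fun u _ => ?_
    rw [dif_pos m0, dif_pos m1]
    have h2 : mx S x (i ⟨1, m1⟩) u = mx S x u (i ⟨1, m1⟩) :=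
      congrFun (congrFun (mx_transpose hS x) u) (i ⟨1, m1⟩)
    rw [h2]
  simp only [h1]
  have h2 := sum_two (d := d) (fun j => (mx T x * mx S x) (j 0) (j 1) ^ 2)
  simp only [Matrix.cons_val_zero, Matrix.cons_val_one] at h2
  rw [← h2]
  let e : ({a : Fin 2 // a ∈ ({0, 1} : Finset (Fin 2))} → Fin d) ≃ (Fin 2 → Fin d) :=
    { toFun := fun i a => i ⟨a, by fin_cases a <;> simp⟩
      invFun := fun j a => j a
      left_inv := fun _ => rfl
      right_inv := fun _ => rfl }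
  exact Equiv.sum_comp e (fun j => (mx T x * mx S x) (j 0) (j 1) ^ 2)

theorem quad_ctr {T S : (Fin 3 → Fin d) → ℝ} (hT : IsSymT T) (hS : IsSymT S) {x : Fin d → ℝ}
    (hx : ∑ i, x i ^ 2 ≤ 1) {K : ℝ} (hK : ∑ a, ∑ b, mx S x a b ^ 2 ≤ K ^ 2) {q : ℝ} (hq : 1 ≤ q) :
    ∑ C : Finset (Fin 2), q ^ (2 * 2 - C.card) * ∑ i, ctr (quad T S) x C i ^ 2 ≤
      (27 * injNorm 2 T) ^ 2 * (3 * q ^ 4 * (27 * injNorm 2 S) ^ 2 + q ^ 2 * K ^ 2) := by
  have huniv : (Finset.univ : Finset (Finset (Fin 2))) = {∅, {0}, {1}, {0, 1}} := by decide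
  rw [huniv, Finset.sum_insert (by decide), Finset.sum_insert (by decide), Finset.sum_insert (by decide),
    Finset.sum_singleton, Quad_c0 hT hS, Quad_c1 hT hS, Quad_c2 hT hS, Quad_c3 hT hS]
  have e0 : (∅ : Finset (Fin 2)).card = 0 := rfl
  have e1 : ({0} : Finset (Fin 2)).card = 1 := rfl
  have e2 : ({1} : Finset (Fin 2)).card = 1 := rfl
  have e3 : ({0, 1} : Finset (Fin 2)).card = 2 := rfl
  rw [e0, e1, e2, e3]
  norm_num only
  set τ : ℝ := 27 * injNorm 2 T with hτ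
  set ς : ℝ := 27 * injNorm 2 S with hς
  have vT : ∑ a, vx T x a ^ 2 ≤ τ ^ 2 := vx_le hT hx
  have vS : ∑ a, vx S x a ^ 2 ≤ ς ^ 2 := vx_le hS hx
  have b0 : (vx T x ⬝ᵥ vx S x) ^ 2 ≤ τ ^ 2 * ς ^ 2 := by
    have h1 : (vx T x ⬝ᵥ vx S x) ^ 2 ≤ (∑ a, vx T x a ^ 2) * ∑ a, vx S x a ^ 2 :=
      Finset.sum_mul_sq_le_sq_mul_sq _ _ _
    exact h1.trans (mul_le_mul vT vS (Finset.sum_nonneg fun _ _ => sq_nonneg _) (sq_nonneg _))
  have b1 : ∑ a, (mx T x *ᵥ vx S x) a ^ 2 ≤ τ ^ 2 * ς ^ 2 :=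
    (mx_le hT hx _).trans (mul_le_mul_of_nonneg_left vS (sq_nonneg _))
  have b2 : ∑ a, (mx S x *ᵥ vx T x) a ^ 2 ≤ τ ^ 2 * ς ^ 2 := by
    refine (mx_le hS hx _).trans ?_
    rw [mul_comm (τ ^ 2)]
    exact mul_le_mul_of_nonneg_left vT (sq_nonneg _)
  have b3 : ∑ a, ∑ b, (mx T x * mx S x) a b ^ 2 ≤ τ ^ 2 * K ^ 2 :=
    (hs_mul (fun z => mx_le hT hx z)).trans (mul_le_mul_of_nonneg_left hK (sq_nonneg _))
  have hq0 : 0 ≤ q := by linarith
  have hq3 : q ^ 3 ≤ q ^ 4 := pow_le_pow_right₀ hq (by norm_num)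
  have hp : 0 ≤ τ ^ 2 * ς ^ 2 := mul_nonneg (sq_nonneg _) (sq_nonneg _)
  have t0 : q ^ 4 * (vx T x ⬝ᵥ vx S x) ^ 2 ≤ q ^ 4 * (τ ^ 2 * ς ^ 2) :=
    mul_le_mul_of_nonneg_left b0 (pow_nonneg hq0 _)
  have t1 : q ^ 3 * ∑ a, (mx T x *ᵥ vx S x) a ^ 2 ≤ q ^ 4 * (τ ^ 2 * ς ^ 2) :=
    mul_le_mul hq3 b1 (Finset.sum_nonneg fun _ _ => sq_nonneg _) (pow_nonneg hq0 _)
  have t2 : q ^ 3 * ∑ a, (mx S x *ᵥ vx T x) a ^ 2 ≤ q ^ 4 * (τ ^ 2 * ς ^ 2) :=
    mul_le_mul hq3 b2 (Finset.sum_nonneg fun _ _ => sq_nonneg _) (pow_nonneg hq0 _)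
  have t3 : q ^ 2 * ∑ a, ∑ b, (mx T x * mx S x) a b ^ 2 ≤ q ^ 2 * (τ ^ 2 * K ^ 2) :=
    mul_le_mul_of_nonneg_left b3 (pow_nonneg hq0 _)
  have hfin : τ ^ 2 * (3 * q ^ 4 * ς ^ 2 + q ^ 2 * K ^ 2) =
      q ^ 4 * (τ ^ 2 * ς ^ 2) + (q ^ 4 * (τ ^ 2 * ς ^ 2) + (q ^ 4 * (τ ^ 2 * ς ^ 2) +
        q ^ 2 * (τ ^ 2 * K ^ 2))) := by ring
  rw [hfin]
  exact add_le_add t0 (add_le_add t1 (add_le_add t2 t3))

end Pool.Agent.InjC
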