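import Pool.Agent.InjC.Defs

/-!
# MP_e7fc82_pr, cubes, module Tri: the matrices and vectors of a symmetric array of order three (helper41)

`pn_le`: `pn 2 x = sqrt (∑ x²)`. `pairing_vx`: `sum_three`. `mx_linear`: unfold. `mx_transpose`: `IsSymT` for the swap of the
slots 0, 1. `mx_form`: `y ⬝ᵥ (mx T x *ᵥ z) = ML T ![y, z, x]` and `ml_le` (p = 2, r = 3, `27 = 3 ^ 3`), by homogeneity it is enough to
treat `∑ x² ≤ 1` etc. `mx_le`: take `y = mx T x *ᵥ z` in `mx_form`-type bounds (or `y` normalised). `vx_le`: `z = x`.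
`mx_hs`: the squares of the columns `mx T x *ᵥ Pi.single b 1` sum to `∑ (mx T x a b)²`. `hs_mul`: column by column.
-/

namespace Pool.Agent.InjC

open Finset MeasureTheory ProbabilityTheory Matrix
open Pool.Agent.InjP Pool.Agent.InjB
open Pool.Agent.SymASQ (sg)

variable {d n : ℕ}

theorem pn_two (x : Fin d → ℝ) : pn 2 x = Real.sqrt (∑ i, x i ^ 2) := by
  unfold pn
  rw [Real.sqrt_eq_rpow]
  congr 1
  exact Finset.sum_congr rfl fun i _ => by rw [Real.rpow_two, sq_abs]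

theorem pn_le {x : Fin d → ℝ} (hx : ∑ i, x i ^ 2 ≤ 1) : pn 2 x ≤ 1 := by
  rw [pn_two]
  exact Real.sqrt_le_iff.2 ⟨zero_le_one, by simpa using hx⟩

theorem pairing_vx (T : (Fin 3 → Fin d) → ℝ) (x : Fin d → ℝ) : pairing T x = vx T x ⬝ᵥ x := by
  unfold pairing
  rw [sum_three]
  have e0 : vx T x ⬝ᵥ x = ∑ a, (∑ b, (∑ c, T ![a, b, c] * x c) * x b) * x a := rfl
  rw [e0]
  refine Finset.sum_congr rfl fun a _ => ?_
  rw [Finset.sum_mul]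
  refine Finset.sum_congr rfl fun b _ => ?_
  rw [Finset.sum_mul, Finset.sum_mul]
  refine Finset.sum_congr rfl fun c _ => ?_
  rw [Fin.prod_univ_three]
  simp only [Matrix.cons_val_zero, Matrix.cons_val_one, Matrix.cons_val]
  ring

theorem mx_linear (T : Fin n → (Fin 3 → Fin d) → ℝ) (g : Fin n → ℝ) (x : Fin d → ℝ) :
    mx (∑ i, g i • T i) x = ∑ i, g i • mx (T i) x := by
  ext a b
  rw [Matrix.sum_apply]
  unfold mx
  simp only [Matrix.of_apply, Matrix.smul_apply, smul_eq_mul, Finset.sum_apply, Pi.smul_apply,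
    Finset.sum_mul, Finset.mul_sum]
  rw [Finset.sum_comm]
  exact Finset.sum_congr rfl fun i _ => Finset.sum_congr rfl fun k _ => by ring

theorem vx_linear (T : Fin n → (Fin 3 → Fin d) → ℝ) (g : Fin n → ℝ) (x : Fin d → ℝ) :
    vx (∑ i, g i • T i) x = ∑ i, g i • vx (T i) x := by
  unfold vx
  rw [mx_linear, Matrix.sum_mulVec]
  exact Finset.sum_congr rfl fun i _ => Matrix.smul_mulVec _ _ _

theorem mx_transpose {T : (Fin 3 → Fin d) → ℝ} (hT : IsSymT T) (x : Fin d → ℝ) : (mx T x)ᵀ = mx T x := by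
  ext a b
  rw [Matrix.transpose_apply]
  unfold mx
  rw [Matrix.of_apply, Matrix.of_apply]
  refine Finset.sum_congr rfl fun c _ => ?_
  have h := hT (Equiv.swap 0 1) ![a, b, c]
  have e : (![a, b, c] : Fin 3 → Fin d) ∘ (Equiv.swap (0 : Fin 3) 1) = ![b, a, c] := by
    funext j
    fin_cases j <;> rfl
  rw [e] at h
  rw [h]

/-- the form of the matrix as a multilinear form -/
private theorem tri_form (T : (Fin 3 → Fin d) → ℝ) (x y z : Fin d → ℝ) :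
    y ⬝ᵥ (mx T x *ᵥ z) = ML T ![y, z, x] := by
  unfold ML
  rw [sum_three]
  have e0 : y ⬝ᵥ (mx T x *ᵥ z) = ∑ a, y a * ∑ b, (∑ c, T ![a, b, c] * x c) * z b := rfl
  rw [e0]
  refine Finset.sum_congr rfl fun a _ => ?_
  rw [Finset.mul_sum]
  refine Finset.sum_congr rfl fun b _ => ?_
  rw [Finset.sum_mul, Finset.mul_sum]
  refine Finset.sum_congr rfl fun c _ => ?_
  rw [Fin.prod_univ_three]
  simp only [Matrix.cons_val_zero, Matrix.cons_val_one, Matrix.cons_val]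
  ring

theorem mx_form {T : (Fin 3 → Fin d) → ℝ} (hT : IsSymT T) {x y z : Fin d → ℝ} (hx : ∑ i, x i ^ 2 ≤ 1)
    (hy : ∑ i, y i ^ 2 ≤ 1) (hz : ∑ i, z i ^ 2 ≤ 1) :
    |y ⬝ᵥ (mx T x *ᵥ z)| ≤ 27 * injNorm 2 T := by
  rw [tri_form]
  have h := ml_le (p := 2) (by norm_num) (by norm_num : (3 : ℕ) ≠ 0) hT (y := ![y, z, x])
    (by
      intro j
      fin_cases j
      · exact pn_le hy
      · exact pn_le hz
      · exact pn_le hx)
  norm_num at h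
  exact h

/-- normalisation of a vector -/
private theorem tri_norm (z : Fin d → ℝ) :
    ∃ z' : Fin d → ℝ, ∑ i, z' i ^ 2 ≤ 1 ∧ z = Real.sqrt (∑ i, z i ^ 2) • z' := by
  rcases eq_or_lt_of_le (Finset.sum_nonneg fun i (_ : i ∈ univ) => sq_nonneg (z i)) with h0 | h0
  · refine ⟨0, by simp, ?_⟩
    rw [← h0, Real.sqrt_zero, zero_smul]
    funext i
    have h1 := (Finset.sum_eq_zero_iff_of_nonneg (fun i (_ : i ∈ univ) => sq_nonneg (z i))).1 h0.symm i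
      (Finset.mem_univ i)
    simpa using h1
  · have hs : 0 < Real.sqrt (∑ i, z i ^ 2) := Real.sqrt_pos.2 h0
    refine ⟨(Real.sqrt (∑ i, z i ^ 2))⁻¹ • z, ?_, ?_⟩
    · have e1 : ∑ i, ((Real.sqrt (∑ i, z i ^ 2))⁻¹ • z) i ^ 2 = 1 := by
        have e2 : ∀ i, ((Real.sqrt (∑ i, z i ^ 2))⁻¹ • z) i ^ 2 = (∑ i, z i ^ 2)⁻¹ * z i ^ 2 := by
          intro i
          rw [Pi.smul_apply, smul_eq_mul, mul_pow, inv_pow, Real.sq_sqrt h0.le]
        rw [Finset.sum_congr rfl fun i _ => e2 i, ← Finset.mul_sum, inv_mul_cancel₀ h0.ne']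
      exact e1.le
    · rw [smul_smul, mul_inv_cancel₀ hs.ne', one_smul]

theorem mx_le {T : (Fin 3 → Fin d) → ℝ} (hT : IsSymT T) {x : Fin d → ℝ} (hx : ∑ i, x i ^ 2 ≤ 1)
    (z : Fin d → ℝ) : ∑ a, (mx T x *ᵥ z) a ^ 2 ≤ (27 * injNorm 2 T) ^ 2 * ∑ i, z i ^ 2 := by
  have hK : 0 ≤ injNorm 2 T := injNorm_nonneg (by norm_num) T
  obtain ⟨z', hz', ez⟩ := tri_norm z
  obtain ⟨w', hw', ew⟩ := tri_norm (mx T x *ᵥ z)
  have hZ : 0 ≤ ∑ i, z i ^ 2 := Finset.sum_nonneg fun i _ => sq_nonneg _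
  have hW : 0 ≤ ∑ i, (mx T x *ᵥ z) i ^ 2 := Finset.sum_nonneg fun i _ => sq_nonneg _
  have hsZ : 0 ≤ Real.sqrt (∑ i, z i ^ 2) := Real.sqrt_nonneg _
  have hsW : 0 ≤ Real.sqrt (∑ i, (mx T x *ᵥ z) i ^ 2) := Real.sqrt_nonneg _
  have h1 := mx_form hT hx hw' hz'
  -- the sum of squares is the form
  have e1 : ∑ a, (mx T x *ᵥ z) a ^ 2
      = Real.sqrt (∑ i, (mx T x *ᵥ z) i ^ 2) * Real.sqrt (∑ i, z i ^ 2) * (w' ⬝ᵥ (mx T x *ᵥ z')) := by
    have e2 : ∑ a, (mx T x *ᵥ z) a ^ 2 = (mx T x *ᵥ z) ⬝ᵥ (mx T x *ᵥ z) := by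
      unfold dotProduct
      exact Finset.sum_congr rfl fun a _ => sq _
    have e3 : (mx T x *ᵥ z) ⬝ᵥ (mx T x *ᵥ z)
        = (Real.sqrt (∑ i, (mx T x *ᵥ z) i ^ 2) • w') ⬝ᵥ
          (mx T x *ᵥ (Real.sqrt (∑ i, z i ^ 2) • z')) := by
      exact congrArg₂ (fun u v => u ⬝ᵥ (mx T x *ᵥ v)) ew ez
    refine e2.trans (e3.trans ?_)
    rw [Matrix.mulVec_smul, smul_dotProduct, dotProduct_smul, smul_eq_mul, smul_eq_mul, mul_assoc]
  have e4 : Real.sqrt (∑ i, (mx T x *ᵥ z) i ^ 2) * Real.sqrt (∑ i, (mx T x *ᵥ z) i ^ 2)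
      = ∑ i, (mx T x *ᵥ z) i ^ 2 := Real.mul_self_sqrt hW
  have e5 : Real.sqrt (∑ i, z i ^ 2) * Real.sqrt (∑ i, z i ^ 2) = ∑ i, z i ^ 2 := Real.mul_self_sqrt hZ
  have h2 : w' ⬝ᵥ (mx T x *ᵥ z') ≤ 27 * injNorm 2 T := (le_abs_self _).trans h1
  -- the bound of the square root
  have h3 : Real.sqrt (∑ i, (mx T x *ᵥ z) i ^ 2) ≤ 27 * injNorm 2 T * Real.sqrt (∑ i, z i ^ 2) := by
    rcases eq_or_lt_of_le hsW with h0 | h0
    · rw [← h0]; positivity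
    · have h4 : Real.sqrt (∑ i, (mx T x *ᵥ z) i ^ 2) * Real.sqrt (∑ i, (mx T x *ᵥ z) i ^ 2)
          ≤ Real.sqrt (∑ i, (mx T x *ᵥ z) i ^ 2) * (27 * injNorm 2 T * Real.sqrt (∑ i, z i ^ 2)) := by
        rw [e4]
        have h5 : Real.sqrt (∑ i, (mx T x *ᵥ z) i ^ 2) * Real.sqrt (∑ i, z i ^ 2) * (w' ⬝ᵥ (mx T x *ᵥ z'))
            ≤ Real.sqrt (∑ i, (mx T x *ᵥ z) i ^ 2) * Real.sqrt (∑ i, z i ^ 2) * (27 * injNorm 2 T) :=
          mul_le_mul_of_nonneg_left h2 (by positivity)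
        calc ∑ a, (mx T x *ᵥ z) a ^ 2
            = Real.sqrt (∑ i, (mx T x *ᵥ z) i ^ 2) * Real.sqrt (∑ i, z i ^ 2) * (w' ⬝ᵥ (mx T x *ᵥ z')) := e1
          _ ≤ Real.sqrt (∑ i, (mx T x *ᵥ z) i ^ 2) * Real.sqrt (∑ i, z i ^ 2) * (27 * injNorm 2 T) := h5
          _ = Real.sqrt (∑ i, (mx T x *ᵥ z) i ^ 2) * (27 * injNorm 2 T * Real.sqrt (∑ i, z i ^ 2)) := by
            ring
      exact le_of_mul_le_mul_left h4 h0
  calc ∑ a, (mx T x *ᵥ z) a ^ 2 = Real.sqrt (∑ i, (mx T x *ᵥ z) i ^ 2) ^ 2 := by rw [sq, e4]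
    _ ≤ (27 * injNorm 2 T * Real.sqrt (∑ i, z i ^ 2)) ^ 2 := pow_le_pow_left₀ hsW h3 2
    _ = (27 * injNorm 2 T) ^ 2 * ∑ i, z i ^ 2 := by rw [mul_pow, sq (Real.sqrt _), e5]

theorem vx_le {T : (Fin 3 → Fin d) → ℝ} (hT : IsSymT T) {x : Fin d → ℝ} (hx : ∑ i, x i ^ 2 ≤ 1) :
    ∑ a, vx T x a ^ 2 ≤ (27 * injNorm 2 T) ^ 2 := by
  unfold vx
  refine (mx_le hT hx x).trans ?_
  calc (27 * injNorm 2 T) ^ 2 * ∑ i, x i ^ 2 ≤ (27 * injNorm 2 T) ^ 2 * 1 :=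
        mul_le_mul_of_nonneg_left hx (sq_nonneg _)
    _ = _ := mul_one _

theorem mx_hs {T : (Fin 3 → Fin d) → ℝ} (hT : IsSymT T) {x : Fin d → ℝ} (hx : ∑ i, x i ^ 2 ≤ 1) :
    ∑ a, ∑ b, mx T x a b ^ 2 ≤ (d : ℝ) * (27 * injNorm 2 T) ^ 2 := by
  rw [Finset.sum_comm]
  have h1 : ∀ b : Fin d, ∑ a, mx T x a b ^ 2 ≤ (27 * injNorm 2 T) ^ 2 := by
    intro b
    have h := mx_le hT hx (Pi.single b 1)
    have e1 : ∀ a, (mx T x *ᵥ Pi.single b 1) a = mx T x a b := by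
      intro a
      rw [Matrix.mulVec_single_one]
      rfl
    have e2 : ∑ i, (Pi.single b (1 : ℝ) : Fin d → ℝ) i ^ 2 = 1 := by
      rw [Finset.sum_eq_single b]
      · simp
      · intro j _ hj
        simp [hj]
      · simp
    rw [e2, mul_one] at h
    rw [Finset.sum_congr rfl fun a _ => by rw [e1 a]] at h
    exact h
  refine (Finset.sum_le_sum fun b _ => h1 b).trans ?_
  rw [Finset.sum_const, nsmul_eq_mul]
  simp

theorem hs_mul {M M' : Matrix (Fin d) (Fin d) ℝ} {m : ℝ}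
    (hM : ∀ z : Fin d → ℝ, ∑ a, (M *ᵥ z) a ^ 2 ≤ m * ∑ i, z i ^ 2) :
    ∑ a, ∑ b, (M * M') a b ^ 2 ≤ m * ∑ a, ∑ b, M' a b ^ 2 := by
  rw [Finset.sum_comm, Finset.sum_comm (f := fun a b => M' a b ^ 2), Finset.mul_sum]
  refine Finset.sum_le_sum fun b _ => ?_
  have h := hM (fun i => M' i b)
  have e1 : ∀ a, (M *ᵥ fun i => M' i b) a = (M * M') a b := by
    intro a
    rw [Matrix.mul_apply]
    rfl
  rw [Finset.sum_congr rfl fun a _ => by rw [e1 a]] at h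
  exact h

end Pool.Agent.InjC
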